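import Pool.Agent.Lib.MP_8f60dc_al.IB.Stm

/-!
# Infinitely branching graphs, piece adj: adjoint families
-/

set_option autoImplicit false

namespace Pool.Agent.Lib.MP_8f60dc_al.IB

open Relation

section

variable {E : DGraph} {R : Type} [NonUnitalRing R] [StarRing R] (l : Fam E R)

private theorem adj_SP (w : E.V) (p : List E.Ed) : l.adj.SP w p = star (l.TP w p) := by
  induction p with
  | nil => rfl
  | cons e p ih =>
    rw [Fam.SP_cons, Fam.TP_cons, ih, star_mul]
    rfl

private theorem adj_TP (w : E.V) (p : List E.Ed) : l.adj.TP w p = star (l.SP w p) := by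
  induction p with
  | nil => rfl
  | cons e p ih =>
    rw [Fam.SP_cons, Fam.TP_cons, ih, star_mul]
    rfl

private theorem adj_lv (h : IsLeavitt l) : IsLeavitt l.adj where
  idem v := by
    show star (l.P v) * star (l.P v) = star (l.P v)
    rw [← star_mul, h.idem]
  orth v w hvw := by
    show star (l.P v) * star (l.P w) = 0
    rw [← star_mul, h.orth _ _ (Ne.symm hvw), star_zero]
  ps e := by
    show star (l.P (E.src e)) * star (l.T e) = star (l.T e)
    rw [← star_mul, h.tp]
  sp e := by
    show star (l.T e) * star (l.P (E.rng e)) = star (l.T e)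
    rw [← star_mul, h.pt]
  pt e := by
    show star (l.P (E.rng e)) * star (l.S e) = star (l.S e)
    rw [← star_mul, h.sp]
  tp e := by
    show star (l.S e) * star (l.P (E.src e)) = star (l.S e)
    rw [← star_mul, h.ps]
  ts e := by
    show star (l.S e) * star (l.T e) = star (l.P (E.rng e))
    rw [← star_mul, h.ts]
  ts0 e f hef := by
    show star (l.S e) * star (l.T f) = 0
    rw [← star_mul, h.ts0 _ _ (Ne.symm hef), star_zero]
  ck v s hs hv := by
    show star (l.P v) = ∑ e ∈ s, star (l.T e) * star (l.S e)
    rw [h.ck v s hs hv, star_sum]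
    exact Finset.sum_congr rfl fun e _ => star_mul _ _

private theorem adj_M (c : Choice E) (κ : NewEd E × ℕ) : c.M l.adj κ = star (c.N l κ) :=
  adj_SP l _ _

private theorem adj_N (c : Choice E) (κ : NewEd E × ℕ) : c.N l.adj κ = star (c.M l κ) :=
  adj_TP l _ _

end

theorem p_adj : S_adj := by
  classical
  intro E R _ _ l
  refine ⟨adj_lv l, ⟨fun h => ⟨h.lv, ?_⟩, fun h => ⟨h.1, fun v => ?_, fun e => ?_⟩⟩, fun c => ?_⟩
  · apply Fam.ext
    · funext v
      exact h.sa v
    · funext e
      show star (l.T e) = l.S e
      rw [h.st, star_star]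
    · funext e
      exact (h.st e).symm
  · exact congrFun (congrArg Fam.P h.2) v
  · exact (congrFun (congrArg Fam.T h.2) e).symm
  · apply Fam.ext
    · rfl
    · funext x
      cases x with
      | inl e =>
        show star ((c.plus l).T (Sum.inl e)) = (c.plus l.adj).S (Sum.inl e)
        simp only [Choice.plus, Sum.elim_inl]
        by_cases h : ∃ κ, c.a κ = e
        · rw [dif_pos h, dif_pos h, adj_M, adj_N, adj_M, star_add, star_sub, star_mul, star_mul,
            star_mul, star_mul]
          rfl
        · rw [dif_neg h, dif_neg h]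
          rfl
      | inr g =>
        show star ((c.plus l).T (Sum.inr g)) = (c.plus l.adj).S (Sum.inr g)
        simp only [Choice.plus, Sum.elim_inr]
        rw [adj_M, star_mul]
        rfl
    · funext x
      cases x with
      | inl e =>
        show star ((c.plus l).S (Sum.inl e)) = (c.plus l.adj).T (Sum.inl e)
        simp only [Choice.plus, Sum.elim_inl]
        by_cases h : ∃ κ, c.a κ = e
        · rw [dif_pos h, dif_pos h, adj_M, adj_N, adj_N, star_add, star_sub, star_mul, star_mul,
            star_mul, star_mul]
          rfl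
        · rw [dif_neg h, dif_neg h]
          rfl
      | inr g =>
        show star ((c.plus l).S (Sum.inr g)) = (c.plus l.adj).T (Sum.inr g)
        simp only [Choice.plus, Sum.elim_inr]
        rw [adj_N, star_mul]
        rfl

end Pool.Agent.Lib.MP_8f60dc_al.IB
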