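import Pool.Agent.Lib.MP_8f60dc_al.IB.Stm

/-!
# Infinitely branching graphs: the amplification
-/

set_option autoImplicit false

namespace Pool.Agent.Lib.MP_8f60dc_al.IB

open Relation

/-- the source of an edge of the amplification -/
def amp_s (E : DGraph) (x : (amp E).Ed) : E.V := (amp E).src x

/-- the range of an edge of the amplification -/
def amp_r (E : DGraph) (x : (amp E).Ed) : E.V := (amp E).rng x

/-- a step of the amplification is a path of the graph -/
theorem amp_trans (E : DGraph) (x : (amp E).Ed) : TransGen E.Step (amp_s E x) (amp_r E x) := by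
  rcases x with e | g
  · exact TransGen.single ⟨e, rfl, rfl⟩
  · exact g.2

/-- the reachability of the amplification -/
theorem amp_reach (E : DGraph) (v u : E.V) (h : TransGen (amp E).Step v u) :
    TransGen E.Step v u := by
  induction h with
  | single h =>
    obtain ⟨x, rfl, rfl⟩ := h
    exact amp_trans E x
  | tail _ h ih =>
    obtain ⟨x, rfl, rfl⟩ := h
    exact TransGen.trans ih (amp_trans E x)

theorem amp_countable (E : DGraph) [Countable E.V] [Countable E.Ed] : Countable (amp E).Ed :=
  inferInstanceAs (Countable (E.Ed ⊕ NewEd E))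

/-- the new edges from `v` to `u` -/
def amp_new (E : DGraph) (v u : E.V) (h : TransGen E.Step v u) (n : ℕ) : (amp E).Ed :=
  Sum.inr ⟨(v, u, n), h⟩

theorem amp_new_inj (E : DGraph) (v u : E.V) (h : TransGen E.Step v u) :
    Function.Injective (amp_new E v u h) := by
  intro n m hnm
  have h1 : (⟨(v, u, n), h⟩ : NewEd E) = ⟨(v, u, m), h⟩ := Sum.inr.inj hnm
  have h2 := congrArg (fun g : NewEd E => g.1.2.2) h1
  exact h2

theorem amp_fibre (E : DGraph) (W : Type) (β : E.V → W) (v u : E.V) (h : TransGen E.Step v u) :
    Infinite {x : (amp E).Ed // (β (amp_s E x), β (amp_r E x)) = (β v, β u)} :=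
  Infinite.of_injective (fun n : ℕ => ⟨amp_new E v u h n, rfl⟩) (by
    intro n m hnm
    exact amp_new_inj E v u h (congrArg Subtype.val hnm))

theorem p_amp : S_amp := by
  constructor
  · intro E _ v u h
    have h1 : TransGen E.Step v u := amp_reach E v u h
    refine (Set.infinite_range_of_injective (amp_new_inj E v u h1)).mono ?_
    rintro _ ⟨n, rfl⟩
    exact ⟨rfl, ReflTransGen.refl⟩
  · intro E F _ _ _ _ β hβ
    have hE : Countable (amp E).Ed := amp_countable E
    have hF : Countable (amp F).Ed := amp_countable F
    have key : ∀ c : F.V × F.V, Nonempty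
        ({x : (amp E).Ed // (β (amp_s E x), β (amp_r E x)) = c} ≃
          {x : (amp F).Ed // (amp_s F x, amp_r F x) = c}) := by
      rintro ⟨v', u'⟩
      obtain ⟨v, rfl⟩ := β.surjective v'
      obtain ⟨u, rfl⟩ := β.surjective u'
      by_cases h : TransGen F.Step (β v) (β u)
      · have i1 := amp_fibre E F.V β v u ((hβ v u).2 h)
        have i2 : Infinite {x : (amp F).Ed // (amp_s F x, amp_r F x) = (β v, β u)} :=
          amp_fibre F F.V (fun w => w) (β v) (β u) h
        exact nonempty_equiv_of_countable
      · have aux : ∀ a b : F.V, a = β v → b = β u → TransGen F.Step a b → False := by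
          rintro a b rfl rfl h'
          exact h h'
        have e1 : IsEmpty {x : (amp E).Ed // (β (amp_s E x), β (amp_r E x)) = (β v, β u)} := by
          refine ⟨fun x => ?_⟩
          have h1 := (hβ _ _).1 (amp_trans E x.1)
          have h2 : β (amp_s E x.1) = β v := congrArg Prod.fst x.2
          have h3 : β (amp_r E x.1) = β u := congrArg Prod.snd x.2
          exact aux _ _ h2 h3 h1
        have e2 : IsEmpty {x : (amp F).Ed // (amp_s F x, amp_r F x) = (β v, β u)} := by
          refine ⟨fun x => ?_⟩
          have h1 := amp_trans F x.1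
          have h2 : amp_s F x.1 = β v := congrArg Prod.fst x.2
          have h3 : amp_r F x.1 = β u := congrArg Prod.snd x.2
          exact aux _ _ h2 h3 h1
        exact ⟨Equiv.equivOfIsEmpty _ _⟩
    refine ⟨Equiv.ofFiberEquiv (f := fun x => (β (amp_s E x), β (amp_r E x)))
      (g := fun x => (amp_s F x, amp_r F x)) (fun c => Classical.choice (key c)), ?_, ?_⟩
    · intro x
      exact congrArg Prod.fst (Equiv.ofFiberEquiv_map (f := fun x => (β (amp_s E x), β (amp_r E x)))
        (g := fun x => (amp_s F x, amp_r F x)) (fun c => Classical.choice (key c)) x)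
    · intro x
      exact congrArg Prod.snd (Equiv.ofFiberEquiv_map (f := fun x => (β (amp_s E x), β (amp_r E x)))
        (g := fun x => (amp_s F x, amp_r F x)) (fun c => Classical.choice (key c)) x)

end Pool.Agent.Lib.MP_8f60dc_al.IB
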