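import Pool.Agent.Lib.MP_8f60dc_al.IB.Stm

/-!
# Infinitely branching graphs: isomorphism with the amplification
-/

set_option autoImplicit false

namespace Pool.Agent.Lib.MP_8f60dc_al.IB

open Relation

theorem ampIso_M {E : DGraph} (c : Choice E) {R S F : Type*} [NonUnitalRing R] [NonUnitalRing S]
    [FunLike F R S] [NonUnitalRingHomClass F R S] (f : F) (l : Fam E R) (κ : NewEd E × ℕ) :
    c.M (l.map f) κ = f (c.M l κ) :=
  Fam.map_SP f l _ _

theorem ampIso_N {E : DGraph} (c : Choice E) {R S F : Type*} [NonUnitalRing R] [NonUnitalRing S]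
    [FunLike F R S] [NonUnitalRingHomClass F R S] (f : F) (l : Fam E R) (κ : NewEd E × ℕ) :
    c.N (l.map f) κ = f (c.N l κ) :=
  Fam.map_TP f l _ _

/-- the family of the amplification commutes with homomorphisms -/
theorem ampIso_map {E : DGraph} (c : Choice E) {R S F : Type*} [NonUnitalRing R]
    [NonUnitalRing S] [FunLike F R S] [NonUnitalRingHomClass F R S] (f : F) (l : Fam E R) :
    (c.plus l).map f = c.plus (l.map f) := by
  apply Fam.ext
  · rfl
  · funext x
    rcases x with e | g
    · show f ((c.plus l).S (Sum.inl e)) = (c.plus (l.map f)).S (Sum.inl e)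
      unfold Choice.plus
      simp only [Sum.elim_inl]
      split_ifs with h
      · rw [map_add, map_sub, map_mul, map_mul, map_mul, map_mul, ampIso_M, ampIso_N, ampIso_M]
        rfl
      · rfl
    · show f ((c.plus l).S (Sum.inr g)) = (c.plus (l.map f)).S (Sum.inr g)
      unfold Choice.plus
      simp only [Sum.elim_inr]
      rw [map_mul, ampIso_M]
      rfl
  · funext x
    rcases x with e | g
    · show f ((c.plus l).T (Sum.inl e)) = (c.plus (l.map f)).T (Sum.inl e)
      unfold Choice.plus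
      simp only [Sum.elim_inl]
      split_ifs with h
      · rw [map_add, map_sub, map_mul, map_mul, map_mul, map_mul, ampIso_M, ampIso_N, ampIso_N]
        rfl
      · rfl
    · show f ((c.plus l).T (Sum.inr g)) = (c.plus (l.map f)).T (Sum.inr g)
      unfold Choice.plus
      simp only [Sum.elim_inr]
      rw [map_mul, ampIso_N]
      rfl

/-- the image of a Leavitt family -/
theorem ampIso_lv {E : DGraph} {R S F : Type*} [NonUnitalRing R]
    [NonUnitalRing S] [FunLike F R S] [NonUnitalRingHomClass F R S] (f : F) {l : Fam E R}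
    (hl : IsLeavitt l) : IsLeavitt (l.map f) where
  idem v := by
    show f (l.P v) * f (l.P v) = f (l.P v)
    rw [← map_mul, hl.idem]
  orth v w h := by
    show f (l.P v) * f (l.P w) = 0
    rw [← map_mul, hl.orth v w h, map_zero]
  ps e := by
    show f (l.P (E.src e)) * f (l.S e) = f (l.S e)
    rw [← map_mul, hl.ps]
  sp e := by
    show f (l.S e) * f (l.P (E.rng e)) = f (l.S e)
    rw [← map_mul, hl.sp]
  pt e := by
    show f (l.P (E.rng e)) * f (l.T e) = f (l.T e)
    rw [← map_mul, hl.pt]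
  tp e := by
    show f (l.T e) * f (l.P (E.src e)) = f (l.T e)
    rw [← map_mul, hl.tp]
  ts e := by
    show f (l.T e) * f (l.S e) = f (l.P (E.rng e))
    rw [← map_mul, hl.ts]
  ts0 e e' h := by
    show f (l.T e) * f (l.S e') = 0
    rw [← map_mul, hl.ts0 e e' h, map_zero]
  ck v s hs h := by
    show f (l.P v) = ∑ e ∈ s, f (l.S e) * f (l.T e)
    rw [hl.ck v s hs h, map_sum]
    exact Finset.sum_congr rfl fun e _ => map_mul _ _ _

theorem p_ampIso (h0 : S_noreg) (h1 : S_choice) (h2 : S_plusL) (h3 : S_amp) (h4 : S_inj)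
    (h5 : S_pmem) (h6 : S_plusG) (h7 : S_adj) : S_ampIso := by
  intro E _ hE
  obtain ⟨c⟩ := h1 E hE
  have hA := h3.1 E hE
  have hreg := h0 (amp E) hA
  have hlv : IsLeavitt (c.plus (lf E)) := h2 E c (LPA E) (lf E) lf_leavitt hreg
  set θ : LPA (amp E) →ₙₐ[ℂ] LPA E := lLift hlv with hθ
  have hθl : (lf (amp E)).map θ = c.plus (lf E) := lLift_lf hlv
  have hinj : Function.Injective θ := by
    apply h4 (amp E) hA
    intro v hv
    have e1 : θ ((lf (amp E)).P v) = (lf E).P v := congrFun (congrArg Fam.P hθl) v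
    have e2 := (h5 E hE ∅ v).1 (by
      rw [← e1, hv]
      exact Submodule.zero_mem _)
    exact e2
  have hmemP : ∀ v, ∃ x, θ x = (lf E).P v :=
    fun v => ⟨(lf (amp E)).P v, congrFun (congrArg Fam.P hθl) v⟩
  have hmem : ∀ e, (∃ x, θ x = (lf E).S e) ∧ ∃ x, θ x = (lf E).T e := by
    intro e
    let X : NonUnitalSubring (LPA E) :=
      { carrier := {y | ∃ x, θ x = y}
        add_mem' := by
          rintro _ _ ⟨x, rfl⟩ ⟨y, rfl⟩
          exact ⟨x + y, map_add _ _ _⟩
        zero_mem' := ⟨0, map_zero _⟩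
        mul_mem' := by
          rintro _ _ ⟨x, rfl⟩ ⟨y, rfl⟩
          exact ⟨x * y, map_mul _ _ _⟩
        neg_mem' := by
          rintro _ ⟨x, rfl⟩
          exact ⟨-x, map_neg _ _⟩ }
    exact h6 E c (LPA E) (lf E) lf_leavitt X hmemP
      (fun x => ⟨(lf (amp E)).S x, congrFun (congrArg Fam.S hθl) x⟩)
      (fun x => ⟨(lf (amp E)).T x, congrFun (congrArg Fam.T hθl) x⟩) e
  have hsurj : Function.Surjective θ := by
    let Y : Submodule ℂ (LPA E) :=
      { carrier := {y | ∃ x, θ x = y}
        add_mem' := by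
          rintro _ _ ⟨x, rfl⟩ ⟨y, rfl⟩
          exact ⟨x + y, map_add _ _ _⟩
        zero_mem' := ⟨0, map_zero _⟩
        smul_mem' := by
          rintro r _ ⟨x, rfl⟩
          exact ⟨r • x, map_smul _ _ _⟩ }
    have hmul : ∀ y z, y ∈ Y → z ∈ Y → y * z ∈ Y := by
      rintro _ _ ⟨x, rfl⟩ ⟨y, rfl⟩
      exact ⟨x * y, map_mul _ _ _⟩
    intro y
    exact lpa_top Y hmemP (fun e => (hmem e).1) (fun e => (hmem e).2)
      (fun v x hx => hmul _ _ (hmemP v) hx) (fun e x hx => hmul _ _ (hmem e).1 hx)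
      (fun e x hx => hmul _ _ (hmem e).2 hx) y
  obtain ⟨f, hf1, hf2⟩ := exists_inv θ ⟨hinj, hsurj⟩
  refine ⟨{ f := f, g := θ, gf := hf2, fg := hf1, cf := ?_, cg := ?_ }⟩
  · intro B _ φ hm
    set l := (lf E).map (φ.comp f) with hl
    have hll : IsLeavitt l := ampIso_lv (φ.comp f) lf_leavitt
    have hcl : c.plus l = (lf (amp E)).map φ := by
      rw [hl, ← ampIso_map, ← hθl]
      apply Fam.ext
      · funext x
        exact congrArg φ (hf1 _)
      · funext x
        exact congrArg φ (hf1 _)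
      · funext x
        exact congrArg φ (hf1 _)
    have h8 := (h7 (amp E) B ((lf (amp E)).map φ)).2.1.1 hm
    have h9 : c.plus l.adj = (lf (amp E)).map φ := by
      rw [← (h7 E B l).2.2 c, hcl, h8.2]
    have hadj : IsLeavitt l.adj := (h7 E B l).1 hll
    have h10 : (lf E).map (lLift hadj) = l.adj := lLift_lf hadj
    have h11 : ∀ x, (lLift hadj).comp θ x = (φ.comp f).comp θ x := by
      apply lpa_ext
      have e1 : (lf (amp E)).map ((lLift hadj).comp θ) = ((lf (amp E)).map θ).map (lLift hadj) :=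
        rfl
      have e2 : (lf (amp E)).map ((φ.comp f).comp θ) = ((lf (amp E)).map θ).map (φ.comp f) :=
        rfl
      rw [e1, e2, hθl, ampIso_map, ampIso_map, h10, h9, ← hl, hcl]
    have h12 : ∀ y, lLift hadj y = (φ.comp f) y := by
      intro y
      obtain ⟨x, rfl⟩ := hsurj y
      exact h11 x
    refine (h7 E B l).2.1.2 ⟨hll, ?_⟩
    rw [← h10]
    apply Fam.ext
    · funext x
      exact h12 _
    · funext x
      exact h12 _
    · funext x
      exact h12 _
  · intro B _ φ hm
    have e1 : (lf (amp E)).map (φ.comp θ) = c.plus ((lf E).map φ) := by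
      have e2 : (lf (amp E)).map (φ.comp θ) = ((lf (amp E)).map θ).map φ := rfl
      rw [e2, hθl, ampIso_map]
    rw [e1]
    have h8 := (h7 E B ((lf E).map φ)).2.1.1 hm
    refine (h7 (amp E) B _).2.1.2 ⟨h2 E c B _ h8.1 hreg, ?_⟩
    rw [(h7 E B _).2.2 c, h8.2]

end Pool.Agent.Lib.MP_8f60dc_al.IB
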