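import Pool.Agent.Lib.MP_8f60dc_al.IB.Stm

/-!
# Infinitely branching graphs: piece back, composition of isomorphisms
-/

set_option autoImplicit false

namespace Pool.Agent.Lib.MP_8f60dc_al.IB

open Relation

/-- the inverse -/
private def back_symm {E F : DGraph} (I : SIso E F) : SIso F E where
  f := I.g
  g := I.f
  gf := I.fg
  fg := I.gf
  cf := I.cg
  cg := I.cf

/-- composition -/
private def back_trans {E F G : DGraph} (I : SIso E F) (J : SIso F G) : SIso E G where
  f := J.f.comp I.f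
  g := I.g.comp J.g
  gf x := by
    show I.g (J.g (J.f (I.f x))) = x
    rw [J.gf, I.gf]
  fg y := by
    show J.f (I.f (I.g (J.g y))) = y
    rw [I.fg, J.fg]
  cf B _ φ h := I.cf B (φ.comp J.f) (J.cf B φ h)
  cg B _ φ h := J.cg B (φ.comp I.g) (I.cg B φ h)

/-- the family of `E` made of a family of `F` -/
private def back_pull {E F : DGraph} (β : E.V ≃ F.V) (γ : E.Ed ≃ F.Ed) {R : Type}
    (l : Fam F R) : Fam E R :=
  ⟨fun v => l.P (β v), fun e => l.S (γ e), fun e => l.T (γ e)⟩

private theorem back_lv {E F : DGraph} (β : E.V ≃ F.V) (γ : E.Ed ≃ F.Ed)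
    (hs : ∀ x, F.src (γ x) = β (E.src x)) (hr : ∀ x, F.rng (γ x) = β (E.rng x)) {R : Type}
    [NonUnitalRing R] {l : Fam F R} (h : IsLeavitt l) : IsLeavitt (back_pull β γ l) where
  idem v := h.idem _
  orth v w hvw := h.orth _ _ fun e => hvw (β.injective e)
  ps e := by
    show l.P (β (E.src e)) * l.S (γ e) = l.S (γ e)
    rw [← hs]
    exact h.ps _
  sp e := by
    show l.S (γ e) * l.P (β (E.rng e)) = l.S (γ e)
    rw [← hr]
    exact h.sp _
  pt e := by
    show l.P (β (E.rng e)) * l.T (γ e) = l.T (γ e)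
    rw [← hr]
    exact h.pt _
  tp e := by
    show l.T (γ e) * l.P (β (E.src e)) = l.T (γ e)
    rw [← hs]
    exact h.tp _
  ts e := by
    show l.T (γ e) * l.S (γ e) = l.P (β (E.rng e))
    rw [← hr]
    exact h.ts _
  ts0 e f hef := h.ts0 _ _ fun e => hef (γ.injective e)
  ck v s hne hv := by
    show l.P (β v) = ∑ e ∈ s, l.S (γ e) * l.T (γ e)
    rw [h.ck (β v) (s.map γ.toEmbedding) (by rw [Finset.map_nonempty]; exact hne) ?_]
    · rw [Finset.sum_map]
      rfl
    · intro e
      rw [Finset.mem_map_equiv, hv]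
      constructor
      · intro h1
        have h2 := hs (γ.symm e)
        rw [γ.apply_symm_apply, h1] at h2
        exact h2
      · intro h1
        apply β.injective
        rw [← hs, γ.apply_symm_apply]
        exact h1

private theorem back_ck {E F : DGraph} (β : E.V ≃ F.V) (γ : E.Ed ≃ F.Ed)
    (hs : ∀ x, F.src (γ x) = β (E.src x)) (hr : ∀ x, F.rng (γ x) = β (E.rng x)) {R : Type}
    [NonUnitalRing R] [StarRing R] {l : Fam F R} (h : IsCK l) : IsCK (back_pull β γ l) where
  lv := back_lv β γ hs hr h.lv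
  sa _ := h.sa _
  st _ := h.st _

/-- relabelling -/
private theorem back_relabel {E F : DGraph} (β : E.V ≃ F.V) (γ : E.Ed ≃ F.Ed)
    (hs : ∀ x, F.src (γ x) = β (E.src x)) (hr : ∀ x, F.rng (γ x) = β (E.rng x)) :
    Nonempty (SIso E F) := by
  have hs' : ∀ x, E.src (γ.symm x) = β.symm (F.src x) := by
    intro x
    rw [β.eq_symm_apply, ← hs, γ.apply_symm_apply]
  have hr' : ∀ x, E.rng (γ.symm x) = β.symm (F.rng x) := by
    intro x
    rw [β.eq_symm_apply, ← hr, γ.apply_symm_apply]
  obtain ⟨f, hf⟩ : ∃ f : LPA E →ₙₐ[ℂ] LPA F, (lf E).map f = back_pull β γ (lf F) :=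
    ⟨lLift (back_lv β γ hs hr lf_leavitt), lLift_lf _⟩
  obtain ⟨g, hg⟩ : ∃ g : LPA F →ₙₐ[ℂ] LPA E, (lf F).map g = back_pull β.symm γ.symm (lf E) :=
    ⟨lLift (back_lv β.symm γ.symm hs' hr' lf_leavitt), lLift_lf _⟩
  have fP : ∀ v, f ((lf E).P v) = (lf F).P (β v) := fun v => congrFun (congrArg Fam.P hf) v
  have fS : ∀ v, f ((lf E).S v) = (lf F).S (γ v) := fun v => congrFun (congrArg Fam.S hf) v
  have fT : ∀ v, f ((lf E).T v) = (lf F).T (γ v) := fun v => congrFun (congrArg Fam.T hf) v
  have gP : ∀ v, g ((lf F).P v) = (lf E).P (β.symm v) := fun v => congrFun (congrArg Fam.P hg) v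
  have gS : ∀ v, g ((lf F).S v) = (lf E).S (γ.symm v) := fun v => congrFun (congrArg Fam.S hg) v
  have gT : ∀ v, g ((lf F).T v) = (lf E).T (γ.symm v) := fun v => congrFun (congrArg Fam.T hg) v
  have e1 : (lf E).map (g.comp f) = (lf E).map (NonUnitalAlgHom.id ℂ (LPA E)) := by
    apply Fam.ext
    · funext v
      show g (f ((lf E).P v)) = (lf E).P v
      rw [fP, gP, β.symm_apply_apply]
    · funext v
      show g (f ((lf E).S v)) = (lf E).S v
      rw [fS, gS, γ.symm_apply_apply]
    · funext v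
      show g (f ((lf E).T v)) = (lf E).T v
      rw [fT, gT, γ.symm_apply_apply]
  have e2 : (lf F).map (f.comp g) = (lf F).map (NonUnitalAlgHom.id ℂ (LPA F)) := by
    apply Fam.ext
    · funext v
      show f (g ((lf F).P v)) = (lf F).P v
      rw [gP, fP, β.apply_symm_apply]
    · funext v
      show f (g ((lf F).S v)) = (lf F).S v
      rw [gS, fS, γ.apply_symm_apply]
    · funext v
      show f (g ((lf F).T v)) = (lf F).T v
      rw [gT, fT, γ.apply_symm_apply]
  refine ⟨⟨⟨f, g, fun x => lpa_ext e1 x, fun x => lpa_ext e2 x⟩, ?_, ?_⟩⟩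
  · intro B _ φ h
    have e3 : (lf E).map (φ.comp f) = back_pull β γ ((lf F).map φ) := by
      apply Fam.ext
      · funext v
        show φ (f ((lf E).P v)) = φ ((lf F).P (β v))
        rw [fP]
      · funext v
        show φ (f ((lf E).S v)) = φ ((lf F).S (γ v))
        rw [fS]
      · funext v
        show φ (f ((lf E).T v)) = φ ((lf F).T (γ v))
        rw [fT]
    rw [e3]
    exact back_ck β γ hs hr h
  · intro B _ φ h
    have e3 : (lf F).map (φ.comp g) = back_pull β.symm γ.symm ((lf E).map φ) := by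
      apply Fam.ext
      · funext v
        show φ (g ((lf F).P v)) = φ ((lf E).P (β.symm v))
        rw [gP]
      · funext v
        show φ (g ((lf F).S v)) = φ ((lf E).S (γ.symm v))
        rw [gS]
      · funext v
        show φ (g ((lf F).T v)) = φ ((lf E).T (γ.symm v))
        rw [gT]
    rw [e3]
    exact back_ck β.symm γ.symm hs' hr' h

/-- Reachability isomorphism gives an isomorphism. -/
theorem p_back (h0 : S_noreg) (h1 : S_ampIso) (h2 : S_amp) : S_back := by
  intro E F _ _ _ _ hE hF β hβ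
  obtain ⟨I⟩ := h1 E hE
  obtain ⟨J⟩ := h1 F hF
  obtain ⟨γ, hs, hr⟩ := h2.2 E F β hβ
  obtain ⟨K⟩ := back_relabel (E := amp E) (F := amp F) β γ hs hr
  exact ⟨back_trans I (back_trans K (back_symm J))⟩

end Pool.Agent.Lib.MP_8f60dc_al.IB
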