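import Pool.Agent.Lib.MP_8f60dc_al.IB.Stm

/-!
# Infinitely branching graphs: components have the same size
-/

set_option autoImplicit false

namespace Pool.Agent.Lib.MP_8f60dc_al.IB

open Relation

/-- A vertex is a word. -/
theorem card_wd {E : DGraph} (v : E.V) : wd v [] [] = (lf E).P v := by
  unfold wd
  rw [Fam.SP_nil, Fam.TP_nil]
  exact lf_leavitt.idem v

/-- The trivial word is valid. -/
theorem card_valid {E : DGraph} (v : E.V) : Valid v ([] : List E.Ed) [] :=
  ⟨⟨v, rfl⟩, ⟨v, rfl⟩⟩

/-- The vertices of `H` are in the ideal of `H`. -/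
theorem card_mem {E : DGraph} {H : Set E.V} {v : E.V} (hv : v ∈ H) : (lf E).P v ∈ idl H :=
  Submodule.subset_span ⟨v, [], [], hv, card_valid v, (card_wd v).symm⟩

/-- The component is what is below but not strictly below. -/
theorem card_cp {E : DGraph} (v : E.V) : dn v \ bl v = cp v := by
  ext u
  constructor
  · rintro ⟨h1, h2⟩
    refine ⟨h1, ?_⟩
    by_contra h3
    exact h2 ⟨h1, h3⟩
  · rintro ⟨h1, h2⟩
    exact ⟨h1, fun h3 => h3.2 h2⟩

/-- The image of a commutator sum. -/
theorem card_comm {E F : DGraph} (g : LPA F →ₙₐ[ℂ] LPA E) {x : LPA F} (hx : x ∈ comm F) :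
    g x ∈ comm E := by
  unfold comm at hx
  induction hx using Submodule.span_induction with
  | mem x h =>
    obtain ⟨a, b, rfl⟩ := h
    rw [map_sub, map_mul, map_mul]
    exact Submodule.subset_span ⟨g a, g b, rfl⟩
  | zero =>
    rw [map_zero]
    exact Submodule.zero_mem _
  | add x y _ _ h1 h2 =>
    rw [map_add]
    exact Submodule.add_mem _ h1 h2
  | smul c x _ h =>
    rw [map_smul]
    exact Submodule.smul_mem _ _ h

/-- The trace of `u` vanishes on the commutators and on the ideal of the vertices strictly below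
the component. -/
theorem card_trace {E : DGraph} {v u : E.V} (hu : u ∈ cp v) {t : LPA E →ₗ[ℂ] ℂ}
    (ht : ∀ x y, t (x * y) = t (y * x))
    (hw : ∀ v p q, Valid v p q → v ≠ u → t (wd v p q) = 0) {x : LPA E}
    (hx : x ∈ idl (bl v) ⊔ comm E) : t x = 0 := by
  have h1 : idl (bl v) ⊔ comm E ≤ LinearMap.ker t := by
    refine sup_le ?_ ?_
    · unfold idl
      rw [Submodule.span_le]
      rintro y ⟨a, p, q, ha, hv, rfl⟩
      change t (wd a p q) = 0
      refine hw a p q hv ?_
      rintro rfl
      exact ha.2 hu.2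
    · unfold comm
      rw [Submodule.span_le]
      rintro y ⟨a, b, rfl⟩
      change t (a * b - b * a) = 0
      rw [map_sub, ht, sub_self]
  exact h1 hx

/-- Components have the same size. -/
theorem p_card (h0 : S_noreg) (h1 : S_trace) (h2 : S_idem) (h3 : S_rel) : S_card := by
  intro E F hE hF I v w h
  classical
  set N : Submodule ℂ (LPA F) := idl (bl w) ⊔ comm F with hN
  have hr : I.symm.Rel w v := ⟨h.2, h.1⟩
  -- the inverse isomorphism maps `N` to `N'`
  have hg : ∀ x ∈ N, I.g x ∈ idl (bl v) ⊔ comm E := by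
    intro x hx
    obtain ⟨y, hy, z, hz, rfl⟩ := Submodule.mem_sup.mp hx
    rw [map_add]
    refine Submodule.add_mem_sup ?_ (card_comm I.g hz)
    exact ((h3 F E hF hE I.symm).2.2 w v hr y).2 hy
  -- linear independence
  let b : cp v → LPA F ⧸ N := fun u => N.mkQ (I.f ((lf E).P u.1))
  have hli : LinearIndependent ℂ b := by
    rw [linearIndependent_iff']
    intro s c hs u hu
    have e1 : N.mkQ (∑ i ∈ s, c i • I.f ((lf E).P i.1)) = 0 := by
      rw [map_sum]
      rw [← hs]
      exact Finset.sum_congr rfl fun i _ => map_smul _ _ _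
    have e2 : (∑ i ∈ s, c i • I.f ((lf E).P i.1)) ∈ N := by
      rwa [Submodule.mkQ_apply, Submodule.Quotient.mk_eq_zero] at e1
    have e3 : I.g (∑ i ∈ s, c i • I.f ((lf E).P i.1)) = ∑ i ∈ s, c i • (lf E).P i.1 := by
      rw [map_sum]
      refine Finset.sum_congr rfl fun i _ => ?_
      rw [map_smul, I.gf]
    have e4 := hg _ e2
    rw [e3] at e4
    obtain ⟨t, ht, htw⟩ := h1 E (h0 E hE) u.1
    have e5 : t (∑ i ∈ s, c i • (lf E).P i.1) = 0 := by
      refine card_trace (v := v) u.2 ht ?_ e4
      intro a p q hv ha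
      rw [htw a p q hv, if_neg]
      exact fun h => ha h.2
    have e6 : ∀ i : cp v, t ((lf E).P i.1) = if i = u then 1 else 0 := by
      intro i
      rw [← card_wd, htw i.1 [] [] (card_valid _)]
      by_cases hi : i = u
      · subst hi
        simp
      · have : i.1 ≠ u.1 := fun h => hi (Subtype.ext h)
        simp [hi, this]
    rw [map_sum] at e5
    have e7 : ∀ i ∈ s, t (c i • (lf E).P i.1) = if i = u then c u else 0 := by
      intro i _
      rw [map_smul, e6 i]
      by_cases hi : i = u
      · subst hi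
        simp
      · simp [hi]
    rw [Finset.sum_congr rfl e7, Finset.sum_ite_eq' s u, if_pos hu] at e5
    exact e5
  -- the span
  let a : cp w → LPA F ⧸ N := fun u => N.mkQ ((lf F).P u.1)
  have hsp : Submodule.span ℂ (Set.range b) ≤ Submodule.span ℂ (Set.range a) := by
    rw [Submodule.span_le]
    rintro y ⟨u, rfl⟩
    have e1 : I.f ((lf E).P u.1) ∈ idl (dn w) :=
      ((h3 E F hE hF I).2.2 v w h _).1 (card_mem u.2.1)
    have e2 : I.f ((lf E).P u.1) * I.f ((lf E).P u.1) = I.f ((lf E).P u.1) := by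
      rw [← map_mul, lf_leavitt.idem]
    have e3 := h2 F (dn w) (bl w) _ e2 e1
    rw [card_cp] at e3
    obtain ⟨y, hy, z, hz, hyz⟩ := Submodule.mem_sup.mp e3
    have e4 : b u = N.mkQ y := by
      change N.mkQ (I.f ((lf E).P u.1)) = N.mkQ y
      rw [← hyz, map_add]
      have : N.mkQ z = 0 := by
        rw [Submodule.mkQ_apply, Submodule.Quotient.mk_eq_zero]
        exact hz
      rw [this, add_zero]
    change b u ∈ Submodule.span ℂ (Set.range a)
    rw [e4]
    have e5 : N.mkQ y ∈ (Submodule.span ℂ ((lf F).P '' cp w)).map N.mkQ :=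
      Submodule.mem_map_of_mem hy
    rw [Submodule.map_span] at e5
    refine Submodule.span_mono ?_ e5
    rintro _ ⟨_, ⟨u', hu', rfl⟩, rfl⟩
    exact ⟨⟨u', hu'⟩, rfl⟩
  -- cardinalities
  calc Cardinal.mk (cp v) = Cardinal.mk (Set.range b) :=
        (Cardinal.mk_range_eq b hli.injective).symm
    _ = Module.rank ℂ (Submodule.span ℂ (Set.range b)) := (rank_span hli).symm
    _ ≤ Module.rank ℂ (Submodule.span ℂ (Set.range a)) := Submodule.rank_mono hsp
    _ ≤ Cardinal.mk (Set.range a) := rank_span_le _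
    _ ≤ Cardinal.mk (cp w) := Cardinal.mk_range_le

end Pool.Agent.Lib.MP_8f60dc_al.IB
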