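import Pool.Agent.Lib.MP_8f60dc_al.IB.Stm

/-!
# Infinitely branching graphs: the choices for the amplification
-/

set_option autoImplicit false

namespace Pool.Agent.Lib.MP_8f60dc_al.IB

open Relation

private theorem choice_path {E : DGraph} {v u : E.V} (h : ReflTransGen E.Step v u) :
    ∃ p, IsPath E p v u := by
  induction h using ReflTransGen.head_induction_on with
  | refl => exact ⟨[], rfl⟩
  | head h1 _ ih =>
    obtain ⟨e, he1, he2⟩ := h1
    obtain ⟨p, hp⟩ := ih
    exact ⟨e :: p, he1, by rw [he2]; exact hp⟩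

private theorem choice_cut {E : DGraph} (e : E.Ed) (u : E.V) : ∀ (p : List E.Ed) (x : E.V),
    IsPath E p x u → e ∈ p → ∃ q : List E.Ed, q.length < p.length ∧ IsPath E q (E.rng e) u := by
  intro p
  induction p with
  | nil =>
    intro x _ h
    exact absurd h (List.not_mem_nil)
  | cons f p ih =>
    intro x hp he
    rcases List.mem_cons.1 he with h | h
    · refine ⟨p, by simp, ?_⟩
      rw [h]
      exact hp.2
    · obtain ⟨q, hq1, hq2⟩ := ih (E.rng f) hp.2 h
      exact ⟨q, by rw [List.length_cons]; omega, hq2⟩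

private theorem choice_simple {E : DGraph} (e : E.Ed) (u : E.V) : ∀ (n : ℕ) (p : List E.Ed),
    p.length ≤ n → IsPath E p (E.rng e) u → ∃ q, IsPath E q (E.rng e) u ∧ e ∉ q := by
  intro n
  induction n with
  | zero =>
    intro p hn hp
    have h : p = [] := List.length_eq_zero_iff.1 (by omega)
    exact ⟨p, hp, by rw [h]; exact List.not_mem_nil⟩
  | succ n ih =>
    intro p hn hp
    by_cases he : e ∈ p
    · obtain ⟨q, hq1, hq2⟩ := choice_cut e u p _ hp he
      exact ih q (by omega) hq2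
    · exact ⟨p, hp, he⟩

/-- the lists of the edges which have been used -/
private def choice_U {α : Type} (f : ℕ → List α → List α) : ℕ → List α
  | 0 => []
  | n + 1 => choice_U f n ++ f n (choice_U f n)

private theorem choice_sub {α : Type} (f : ℕ → List α → List α) {m n : ℕ} (h : m < n) (x : α)
    (hx : x ∈ f m (choice_U f m)) : x ∈ choice_U f n := by
  induction n with
  | zero => exact absurd h (Nat.not_lt_zero _)
  | succ n ih =>
    show x ∈ choice_U f n ++ f n (choice_U f n)
    rw [List.mem_append]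
    rcases Nat.lt_succ_iff_lt_or_eq.1 h with h1 | h1
    · exact Or.inl (ih h1)
    · subst h1
      exact Or.inr hx

theorem p_choice : S_choice := by
  intro E _ hE
  classical
  obtain ⟨ε, hε⟩ := exists_injective_nat (NewEd E)
  let enc : NewEd E × ℕ → ℕ := fun κ => Nat.pair (ε κ.1) κ.2
  have henc : Function.Injective enc := by
    rintro ⟨g, i⟩ ⟨g', i'⟩ h
    obtain ⟨h1, h2⟩ := Nat.pair_eq_pair.1 h
    exact Prod.ext (hε h1) h2
  have hex : ∀ (n : ℕ) (U : List E.Ed), ∃ L : List E.Ed, ∀ κ : NewEd E × ℕ, enc κ = n →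
      ∃ e p, L = e :: p ∧ e ∉ U ∧ E.src e = κ.1.1.1 ∧
        IsPath E p (E.rng e) κ.1.1.2.1 ∧ e ∉ p := by
    intro n U
    by_cases hn : ∃ κ, enc κ = n
    · obtain ⟨κ, rfl⟩ := hn
      obtain ⟨e, ⟨he1, he2⟩, he3⟩ := (hE _ _ κ.1.2).exists_notMem_finset U.toFinset
      obtain ⟨p, hp⟩ := choice_path he2
      obtain ⟨q, hq1, hq2⟩ := choice_simple e _ p.length p le_rfl hp
      refine ⟨e :: q, fun κ' h => ?_⟩
      have h' := henc h
      subst h'
      exact ⟨e, q, rfl, fun h1 => he3 (List.mem_toFinset.2 h1), he1, hq1, hq2⟩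
    · exact ⟨[], fun κ h => absurd ⟨κ, h⟩ hn⟩
  choose f hf using hex
  have hL : ∀ κ : NewEd E × ℕ, ∃ e p, f (enc κ) (choice_U f (enc κ)) = e :: p ∧
      e ∉ choice_U f (enc κ) ∧ E.src e = κ.1.1.1 ∧
        IsPath E p (E.rng e) κ.1.1.2.1 ∧ e ∉ p := fun κ => hf _ _ κ rfl
  choose a μ h1 h2 h3 h4 h5 using hL
  have hlt : ∀ κ κ', enc κ < enc κ' → a κ ≠ a κ' ∧ a κ' ∉ μ κ := by
    intro κ κ' h
    constructor
    · intro h6
      apply h2 κ'
      rw [← h6]
      exact choice_sub f h _ (by rw [h1]; exact List.mem_cons_self)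
    · intro h6
      exact h2 κ' (choice_sub f h _ (by rw [h1]; exact List.mem_cons_of_mem _ h6))
  refine ⟨⟨enc, a, μ, henc, ?_, ?_, h3, h4, ?_⟩⟩
  · intro g i
    exact Nat.pair_lt_pair_right _ (Nat.lt_succ_self i)
  · intro κ κ' h
    rcases lt_trichotomy (enc κ) (enc κ') with h6 | h6 | h6
    · exact absurd h (hlt κ κ' h6).1
    · exact henc h6
    · exact absurd h.symm (hlt κ' κ h6).1
  · intro κ κ' h
    rcases h.lt_or_eq with h6 | h6
    · exact (hlt κ κ' h6).2
    · have h7 := henc h6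
      subst h7
      exact h5 κ

end Pool.Agent.Lib.MP_8f60dc_al.IB
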