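import Pool.Agent.Lib.MP_8f60dc_al.IB.Stm

/-!
# Infinitely branching graphs: piece `cyc`, cyclic components
-/

set_option autoImplicit false

namespace Pool.Agent.Lib.MP_8f60dc_al.IB

open Relation

variable {E : DGraph}

theorem cyc_path_reach : ∀ {p : List E.Ed} {v w : E.V}, IsPath E p v w →
    ReflTransGen E.Step v w
  | [], v, w, h => by
    change v = w at h
    rw [h]
  | e :: p, v, w, h => ReflTransGen.head ⟨e, h.1, rfl⟩ (cyc_path_reach h.2)

theorem cyc_path_trans {e : E.Ed} {p : List E.Ed} {v w : E.V} (h : IsPath E (e :: p) v w) :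
    TransGen E.Step v w :=
  TransGen.head' ⟨e, h.1, rfl⟩ (cyc_path_reach h.2)

theorem cyc_reach_path {v w : E.V} (h : ReflTransGen E.Step v w) : ∃ p, IsPath E p v w := by
  induction h using ReflTransGen.head_induction_on with
  | refl => exact ⟨[], rfl⟩
  | head h1 _ ih =>
    obtain ⟨e, he, hr⟩ := h1
    obtain ⟨p, hp⟩ := ih
    exact ⟨e :: p, he, hr ▸ hp⟩

theorem cyc_trans_path {v w : E.V} (h : TransGen E.Step v w) :
    ∃ e p, IsPath E (e :: p) v w := by
  obtain ⟨c, ⟨e, he, hr⟩, hc⟩ := TransGen.head'_iff.mp h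
  obtain ⟨p, hp⟩ := cyc_reach_path hc
  exact ⟨e, p, he, hr ▸ hp⟩

theorem cyc_idl_mono {H K : Set E.V} (h : H ⊆ K) : idl H ≤ idl K := by
  apply Submodule.span_mono
  rintro _ ⟨v, p, q, hv, hpq, rfl⟩
  exact ⟨v, p, q, h hv, hpq, rfl⟩

theorem cyc_hered_dn (v : E.V) : Hered E (dn v) := fun _ _ h hx => ReflTransGen.tail hx h

theorem cyc_hered_bl (v : E.V) : Hered E (bl v) := fun _ _ h hx =>
  ⟨ReflTransGen.tail hx.1 h, fun hy => hx.2 (ReflTransGen.head h hy)⟩

/-- The corner at a vertex without closed paths. -/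
theorem cyc_corner (w : E.V) (hw : ¬ TransGen E.Step w w) (y : LPA E) :
    ∃ c : ℂ, (lf E).P w * y * (lf E).P w - c • (lf E).P w ∈ idl (bl w) := by
  have hl := lf_leavitt (E := E)
  suffices h : ∀ y ∈ Submodule.span ℂ (wordSet (lf E)),
      ∃ c : ℂ, (lf E).P w * y * (lf E).P w - c • (lf E).P w ∈ idl (bl w) from h y (lpa_words y)
  intro y hy
  induction hy using Submodule.span_induction with
  | mem y hy =>
    obtain ⟨u, p, q, rfl⟩ := hy
    by_cases hp : IsPath E p w u
    · by_cases hq : IsPath E q w u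
      · have h1 : (lf E).P w * ((lf E).SP u p * (lf E).TP u q) * (lf E).P w =
            (lf E).SP u p * (lf E).TP u q := by
          rw [← mul_assoc, hl.P_SP hp, mul_assoc, hl.TP_P hq]
        by_cases hu : u = w
        · subst hu
          have hp' : p = [] := by
            cases p with
            | nil => rfl
            | cons e p => exact absurd (cyc_path_trans hp) hw
          have hq' : q = [] := by
            cases q with
            | nil => rfl
            | cons e q => exact absurd (cyc_path_trans hq) hw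
          refine ⟨1, ?_⟩
          rw [h1, hp', hq', Fam.SP_nil, Fam.TP_nil, hl.idem, one_smul, sub_self]
          exact Submodule.zero_mem _
        · refine ⟨0, ?_⟩
          rw [h1, zero_smul, sub_zero]
          refine Submodule.subset_span ⟨u, p, q, ⟨cyc_path_reach hp, fun h => ?_⟩,
            ⟨⟨w, hp⟩, ⟨w, hq⟩⟩, rfl⟩
          cases p with
          | nil => exact hu (show w = u from hp).symm
          | cons e p => exact hw (TransGen.trans_left (cyc_path_trans hp) h)
      · refine ⟨0, ?_⟩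
        have h1 : (lf E).TP u q * (lf E).P w = 0 := by
          by_cases h : ∃ x, IsPath E q x u
          · obtain ⟨x, hx⟩ := h
            have hxw : x ≠ w := fun h2 => hq (h2 ▸ hx)
            rw [← hl.TP_P hx, mul_assoc, hl.orth _ _ hxw, mul_zero]
          · rw [hl.TP_zero (not_exists.1 h), zero_mul]
        rw [mul_assoc, mul_assoc, h1, mul_zero, mul_zero, zero_smul, sub_zero]
        exact Submodule.zero_mem _
    · refine ⟨0, ?_⟩
      have h1 : (lf E).P w * (lf E).SP u p = 0 := by
        by_cases h : ∃ x, IsPath E p x u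
        · obtain ⟨x, hx⟩ := h
          have hxw : w ≠ x := fun h2 => hp (h2 ▸ hx)
          rw [← hl.P_SP hx, ← mul_assoc, hl.orth _ _ hxw, zero_mul]
        · rw [hl.SP_zero (not_exists.1 h), mul_zero]
      rw [← mul_assoc, h1, zero_mul, zero_mul, zero_smul, sub_zero]
      exact Submodule.zero_mem _
  | zero =>
    refine ⟨0, ?_⟩
    rw [mul_zero, zero_mul, zero_smul, sub_zero]
    exact Submodule.zero_mem _
  | add x y _ _ hx hy =>
    obtain ⟨c, hc⟩ := hx
    obtain ⟨d, hd⟩ := hy
    refine ⟨c + d, ?_⟩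
    have h1 : (lf E).P w * (x + y) * (lf E).P w - (c + d) • (lf E).P w =
        ((lf E).P w * x * (lf E).P w - c • (lf E).P w) +
          ((lf E).P w * y * (lf E).P w - d • (lf E).P w) := by
      rw [mul_add, add_mul, add_smul]
      abel
    rw [h1]
    exact Submodule.add_mem _ hc hd
  | smul a x _ hx =>
    obtain ⟨c, hc⟩ := hx
    refine ⟨a * c, ?_⟩
    have h1 : (lf E).P w * (a • x) * (lf E).P w - (a * c) • (lf E).P w =
        a • ((lf E).P w * x * (lf E).P w - c • (lf E).P w) := by
      rw [mul_smul_comm, smul_mul_assoc, smul_sub, smul_smul]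
    rw [h1]
    exact Submodule.smul_mem _ a hc

theorem p_cyc (h0 : S_idlId) (h1 : S_reduce) (h2 : S_rel) (h3 : S_pmem) : S_cyc := by
  intro E F hE hF I v w hvw hv
  by_contra hw
  have hlE := lf_leavitt (E := E)
  obtain ⟨-, -, hIf⟩ := h2 E F hE hF I
  obtain ⟨-, -, hIg⟩ := h2 F E hF hE I.symm
  have hwv : I.symm.Rel w v := ⟨hvw.2, hvw.1⟩
  -- the idempotent
  obtain ⟨p, hp⟩ : ∃ p : LPA E, p = I.g ((lf F).P w) := ⟨_, rfl⟩
  have hpdn : p ∈ idl (dn v) := by
    rw [hp]
    exact hvw.2
  have hpbl : p ∉ idl (bl v) := by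
    intro h
    have h4 := (hIf v w hvw p).2 h
    rw [hp, I.fg] at h4
    have h5 := (h3 F hF (bl w) w).mp h4
    exact h5.2 h5.1
  -- the corner of `p`
  have hcorner : ∀ y : LPA E, ∃ k : ℂ, p * y * p - k • p ∈ idl (bl v) := by
    intro y
    obtain ⟨k, hk⟩ := cyc_corner w hw (I.f y)
    refine ⟨k, ?_⟩
    have h4 := (hIg w v hwv _).2 hk
    have h5 : I.symm.f ((lf F).P w * I.f y * (lf F).P w - k • (lf F).P w) = p * y * p - k • p := by
      show I.g ((lf F).P w * I.f y * (lf F).P w - k • (lf F).P w) = p * y * p - k • p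
      rw [map_sub, map_smul, map_mul, map_mul, I.gf, hp]
    rw [h5] at h4
    exact h4
  have hN := h0 E (bl v) (cyc_hered_bl v)
  have hD := h0 E (dn v) (cyc_hered_dn v)
  obtain ⟨c, d, u, hu, hcd⟩ := h1 E hE (bl v) (cyc_hered_bl v) p hpbl
  have hbd : idl (bl v) ≤ idl (dn v) := cyc_idl_mono fun x hx => hx.1
  have hudn : u ∈ dn v := by
    apply (h3 E hE (dn v) u).mp
    have h4 : c * p * d ∈ idl (dn v) := (hD d _ (hD c p hpdn).1).2
    have h5 : (lf E).P u = c * p * d - (c * p * d - (lf E).P u) := by abel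
    rw [h5]
    exact Submodule.sub_mem _ h4 (hbd hcd)
  have huv : ReflTransGen E.Step u v := by
    by_contra h
    exact hu ⟨hudn, h⟩
  have huu : TransGen E.Step u u :=
    TransGen.trans_right huv (TransGen.trans_left hv hudn)
  -- the corner at `u`
  have hcu : ∀ y : LPA E, ∃ k : ℂ, (lf E).P u * y * (lf E).P u - k • (lf E).P u ∈ idl (bl v) := by
    intro y
    obtain ⟨k, hk⟩ := hcorner (d * y * c)
    refine ⟨k, ?_⟩
    obtain ⟨n, hn⟩ : ∃ n : LPA E, n = c * p * d - (lf E).P u := ⟨_, rfl⟩
    have hnN : n ∈ idl (bl v) := by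
      rw [hn]
      exact hcd
    have hPu : (lf E).P u = c * p * d - n := by
      rw [hn]
      abel
    have h4 : (lf E).P u * y * (lf E).P u - k • (lf E).P u =
        c * (p * (d * y * c) * p - k • p) * d - c * p * d * y * n - n * (y * (lf E).P u) +
          k • n := by
      have h5 : (lf E).P u * y * (lf E).P u =
          c * p * d * y * (c * p * d) - c * p * d * y * n - n * (y * (lf E).P u) := by
        conv_lhs => rw [mul_assoc]; arg 1; rw [hPu]
        rw [sub_mul]
        conv_lhs => arg 1; rw [hPu]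
        rw [mul_sub, mul_sub]
        simp only [mul_assoc]
      have h6 : c * (p * (d * y * c) * p - k • p) * d =
          c * p * d * y * (c * p * d) - k • (c * p * d) := by
        rw [mul_sub, sub_mul, mul_smul_comm, smul_mul_assoc]
        simp only [mul_assoc]
      have h7 : k • (lf E).P u = k • (c * p * d) - k • n := by
        rw [← smul_sub, ← hPu]
      rw [h5, h6, h7]
      abel
    rw [h4]
    refine Submodule.add_mem _ (Submodule.sub_mem _ (Submodule.sub_mem _ ?_ ?_) ?_) ?_
    · exact (hN d _ (hN c _ hk).1).2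
    · exact (hN _ n hnN).1
    · exact (hN _ n hnN).2
    · exact Submodule.smul_mem _ k hnN
  -- a closed path
  obtain ⟨e, q, hq⟩ := cyc_trans_path huu
  obtain ⟨f, ⟨hf1, hf2⟩, hfe⟩ := (hE u u huu).exists_notMem_finset {e}
  have hfe' : f ≠ e := fun h => hfe (by rw [h]; exact Finset.mem_singleton_self e)
  obtain ⟨k, hk⟩ := hcu ((lf E).SP u (e :: q))
  rw [hlE.P_SP hq, hlE.SP_P] at hk
  have hTf : (lf E).T f * (lf E).SP u (e :: q) = 0 := by
    rw [Fam.SP_cons, hlE.TS0_assoc hfe']
  have hk0 : k = 0 := by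
    by_contra hk0
    have h4 := (hN ((lf E).S f) _ (hN ((lf E).T f) _ hk).1).2
    have h5 : (lf E).T f * ((lf E).SP u (e :: q) - k • (lf E).P u) * (lf E).S f =
        -(k • (lf E).P (E.rng f)) := by
      rw [mul_sub, hTf, zero_sub, neg_mul, mul_smul_comm, smul_mul_assoc, ← hf1, hlE.tp, hlE.ts]
    rw [h5] at h4
    have h6 : (lf E).P (E.rng f) ∈ idl (bl v) := by
      have h7 : (lf E).P (E.rng f) = (-k⁻¹) • (-(k • (lf E).P (E.rng f))) := by
        rw [smul_neg, neg_smul, neg_neg, smul_smul, inv_mul_cancel₀ hk0, one_smul]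
      rw [h7]
      exact Submodule.smul_mem _ _ h4
    have h8 := (h3 E hE (bl v) (E.rng f)).mp h6
    exact h8.2 (hf2.trans huv)
  rw [hk0, zero_smul, sub_zero] at hk
  have h9 : (lf E).P u ∈ idl (bl v) := by
    rw [← hlE.TP_SP hq]
    exact (hN _ _ hk).1
  have h10 := (h3 E hE (bl v) u).mp h9
  exact h10.2 huv

end Pool.Agent.Lib.MP_8f60dc_al.IB
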