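import Pool.Agent.Lib.MP_8f60dc_al.IB.Stm

/-!
# The degree derivation
-/

set_option autoImplicit false

namespace Pool.Agent.Lib.MP_8f60dc_al.IB

open Relation

noncomputable section

/-- Upper triangular matrices with equal diagonal entries, as a family. -/
def derFam (E : DGraph) : Fam E (Matrix (Fin 2) (Fin 2) (LPA E)) where
  P v := !![(lf E).P v, 0; 0, (lf E).P v]
  S e := !![(lf E).S e, (lf E).S e; 0, (lf E).S e]
  T e := !![(lf E).T e, -(lf E).T e; 0, (lf E).T e]

theorem derFam_lv (E : DGraph) : IsLeavitt (derFam E) where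
  idem v := by
    simp [derFam, lf_leavitt.idem]
  orth v w h := by
    ext i j
    fin_cases i <;> fin_cases j <;> simp [derFam, lf_leavitt.orth v w h]
  ps e := by
    simp [derFam, lf_leavitt.ps]
  sp e := by
    simp [derFam, lf_leavitt.sp]
  pt e := by
    simp [derFam, lf_leavitt.pt]
  tp e := by
    simp [derFam, lf_leavitt.tp]
  ts e := by
    simp [derFam, lf_leavitt.ts]
  ts0 e f h := by
    ext i j
    fin_cases i <;> fin_cases j <;> simp [derFam, lf_leavitt.ts0 e f h]
  ck v s hs h := by
    have h1 : ∀ e, (derFam E).S e * (derFam E).T e =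
        !![(lf E).S e * (lf E).T e, 0; 0, (lf E).S e * (lf E).T e] := by
      intro e
      simp [derFam]
    have h2 := lf_leavitt.ck v s hs h
    rw [Finset.sum_congr rfl fun e _ => h1 e]
    ext i j
    rw [Matrix.sum_apply]
    fin_cases i <;> fin_cases j
    · simpa [derFam] using h2
    · simp [derFam]
    · simp [derFam]
    · simpa [derFam] using h2

/-- The homomorphism. -/
def derHom (E : DGraph) : LPA E →ₙₐ[ℂ] Matrix (Fin 2) (Fin 2) (LPA E) := lLift (derFam_lv E)

theorem derHom_lf (E : DGraph) : (lf E).map (derHom E) = derFam E := lLift_lf _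

/-- Upper triangular matrices with equal diagonal entries. -/
def DerTri {E : DGraph} (x : LPA E) (M : Matrix (Fin 2) (Fin 2) (LPA E)) : Prop :=
  M 0 0 = x ∧ M 1 1 = x ∧ M 1 0 = 0

theorem derHom_tri {E : DGraph} (x : LPA E) : DerTri x (derHom E x) := by
  let X : Submodule ℂ (LPA E) :=
    { carrier := {x | DerTri x (derHom E x)}
      zero_mem' := by
        change DerTri 0 (derHom E 0)
        rw [map_zero]
        exact ⟨rfl, rfl, rfl⟩
      add_mem' := by
        intro a b ha hb
        change DerTri (a + b) (derHom E (a + b))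
        rw [map_add]
        exact ⟨by rw [Matrix.add_apply, ha.1, hb.1], by rw [Matrix.add_apply, ha.2.1, hb.2.1], by
          rw [Matrix.add_apply, ha.2.2, hb.2.2, add_zero]⟩
      smul_mem' := by
        intro c a ha
        change DerTri (c • a) (derHom E (c • a))
        rw [map_smul]
        exact ⟨by rw [Matrix.smul_apply, ha.1], by rw [Matrix.smul_apply, ha.2.1], by
          rw [Matrix.smul_apply, ha.2.2, smul_zero]⟩ }
  have hmul : ∀ a b : LPA E, DerTri a (derHom E a) → DerTri b (derHom E b) →
      DerTri (a * b) (derHom E (a * b)) := by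
    intro a b ha hb
    rw [map_mul]
    refine ⟨?_, ?_, ?_⟩
    · rw [Matrix.mul_apply, Fin.sum_univ_two, ha.1, hb.1, hb.2.2, mul_zero, add_zero]
    · rw [Matrix.mul_apply, Fin.sum_univ_two, ha.2.1, hb.2.1, ha.2.2, zero_mul, zero_add]
    · rw [Matrix.mul_apply, Fin.sum_univ_two, hb.2.2, ha.2.2, zero_mul, mul_zero, add_zero]
  have hP : ∀ v, DerTri ((lf E).P v) (derHom E ((lf E).P v)) := by
    intro v
    have h : derHom E ((lf E).P v) = (derFam E).P v := congrFun (congrArg Fam.P (derHom_lf E)) v
    rw [h]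
    exact ⟨rfl, rfl, rfl⟩
  have hS : ∀ v, DerTri ((lf E).S v) (derHom E ((lf E).S v)) := by
    intro v
    have h : derHom E ((lf E).S v) = (derFam E).S v := congrFun (congrArg Fam.S (derHom_lf E)) v
    rw [h]
    exact ⟨rfl, rfl, rfl⟩
  have hT : ∀ v, DerTri ((lf E).T v) (derHom E ((lf E).T v)) := by
    intro v
    have h : derHom E ((lf E).T v) = (derFam E).T v := congrFun (congrArg Fam.T (derHom_lf E)) v
    rw [h]
    exact ⟨rfl, rfl, rfl⟩
  exact lpa_top X hP hS hT (fun v x hx => hmul _ _ (hP v) hx) (fun v x hx => hmul _ _ (hS v) hx)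
    (fun v x hx => hmul _ _ (hT v) hx) x

/-- The derivation. -/
def derD (E : DGraph) : LPA E →ₗ[ℂ] LPA E where
  toFun x := derHom E x 0 1
  map_add' x y := by
    rw [map_add]
    rfl
  map_smul' c x := by
    rw [map_smul]
    rfl

theorem derD_mul {E : DGraph} (x y : LPA E) : derD E (x * y) = derD E x * y + x * derD E y := by
  change derHom E (x * y) 0 1 = derHom E x 0 1 * y + x * derHom E y 0 1
  rw [map_mul, Matrix.mul_apply, Fin.sum_univ_two, (derHom_tri x).1, (derHom_tri y).2.1, add_comm]

theorem derD_P {E : DGraph} (v : E.V) : derD E ((lf E).P v) = 0 := by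
  have h : derHom E ((lf E).P v) = (derFam E).P v := congrFun (congrArg Fam.P (derHom_lf E)) v
  change derHom E ((lf E).P v) 0 1 = 0
  rw [h]
  rfl

theorem derD_S {E : DGraph} (e : E.Ed) : derD E ((lf E).S e) = (lf E).S e := by
  have h : derHom E ((lf E).S e) = (derFam E).S e := congrFun (congrArg Fam.S (derHom_lf E)) e
  change derHom E ((lf E).S e) 0 1 = _
  rw [h]
  rfl

theorem derD_T {E : DGraph} (e : E.Ed) : derD E ((lf E).T e) = -(lf E).T e := by
  have h : derHom E ((lf E).T e) = (derFam E).T e := congrFun (congrArg Fam.T (derHom_lf E)) e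
  change derHom E ((lf E).T e) 0 1 = _
  rw [h]
  rfl

theorem derD_SP {E : DGraph} (v : E.V) : ∀ p : List E.Ed,
    derD E ((lf E).SP v p) = (p.length : ℂ) • (lf E).SP v p
  | [] => by
    rw [Fam.SP_nil, derD_P, List.length_nil, Nat.cast_zero, zero_smul]
  | e :: p => by
    rw [Fam.SP_cons, derD_mul, derD_S, derD_SP v p, List.length_cons, Nat.cast_succ, add_smul,
      one_smul, mul_smul_comm, add_comm]

theorem derD_TP {E : DGraph} (v : E.V) : ∀ p : List E.Ed,
    derD E ((lf E).TP v p) = -(p.length : ℂ) • (lf E).TP v p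
  | [] => by
    rw [Fam.TP_nil, derD_P, List.length_nil, Nat.cast_zero, neg_zero, zero_smul]
  | e :: p => by
    rw [Fam.TP_cons, derD_mul, derD_T, derD_TP v p, List.length_cons, Nat.cast_succ, neg_add,
      add_smul, neg_smul (1 : ℂ), one_smul, smul_mul_assoc, mul_neg]

theorem p_der : S_der := by
  intro E
  refine ⟨derD E, derD_mul, fun v p q => ?_⟩
  unfold wd
  rw [derD_mul, derD_SP, derD_TP, smul_mul_assoc, mul_smul_comm, ← add_smul, sub_eq_add_neg]

end

end Pool.Agent.Lib.MP_8f60dc_al.IB
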