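import Pool.Agent.Lib.MP_8f60dc_al.IB.Stm

/-!
# Infinitely branching graphs: the bijection of the vertices
-/

set_option autoImplicit false

namespace Pool.Agent.Lib.MP_8f60dc_al.IB

open Relation

theorem p_equiv : S_equiv := by
  intro X Y R hx hy hf hr
  let f : X → Set Y := fun x => {y | R x y}
  let g : Y → Set Y := fun y => {y' | ∃ x, R x y ∧ R x y'}
  have hfg : ∀ x y, R x y → f x = g y := by
    intro x y hxy
    ext y'
    constructor
    · intro h
      exact ⟨x, hxy, h⟩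
    · rintro ⟨x', h1, h2⟩
      exact hr x' y x y' h1 hxy h2
  have hgy : ∀ y, y ∈ g y := by
    intro y
    obtain ⟨x, h⟩ := hy y
    exact ⟨x, h, h⟩
  have hfib : ∀ c : Set Y, Nonempty ({x // f x = c} ≃ {y // g y = c}) := by
    intro c
    by_cases hc : ∃ x₀, f x₀ = c
    · obtain ⟨x₀, rfl⟩ := hc
      obtain ⟨y₀, h₀⟩ := hx x₀
      have h1 : ∀ x, f x = f x₀ ↔ R x y₀ := by
        intro x
        constructor
        · intro h
          have : y₀ ∈ f x := by rw [h]; exact h₀
          exact this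
        · intro h
          rw [hfg x y₀ h, hfg x₀ y₀ h₀]
      have h2 : ∀ y, R x₀ y ↔ g y = f x₀ := by
        intro y
        constructor
        · intro h
          exact (hfg x₀ y h).symm
        · intro h
          have : y ∈ f x₀ := by rw [← h]; exact hgy y
          exact this
      obtain ⟨e⟩ := hf x₀ y₀ h₀
      exact ⟨(Equiv.subtypeEquivRight h1).trans (e.trans (Equiv.subtypeEquivRight h2))⟩
    · have e1 : IsEmpty {x // f x = c} := ⟨fun x => hc ⟨x.1, x.2⟩⟩
      have e2 : IsEmpty {y // g y = c} := ⟨fun y => by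
        obtain ⟨x, h⟩ := hy y.1
        exact hc ⟨x, (hfg x y.1 h).trans y.2⟩⟩
      exact ⟨Equiv.equivOfIsEmpty _ _⟩
  refine ⟨Equiv.ofFiberEquiv fun c => (hfib c).some, fun x => ?_⟩
  have h1 := Equiv.ofFiberEquiv_map (fun c => (hfib c).some) x
  have h2 := hgy (Equiv.ofFiberEquiv (fun c => (hfib c).some) x)
  rw [h1] at h2
  exact h2

/-- The relation of the inverse isomorphism. -/
theorem fwd_symm {E F : DGraph} (I : AIso E F) (v : E.V) (w : F.V) (h : I.Rel v w) :
    I.symm.Rel w v := ⟨h.2, h.1⟩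

/-- Vertices of a component reach the same vertices. -/
theorem fwd_dn {E : DGraph} {v u : E.V} (h : u ∈ cp v) : dn u = dn v := by
  ext x
  exact ⟨fun hx => h.1.trans hx, fun hx => h.2.trans hx⟩

/-- The vertices which correspond to the same vertex. -/
theorem fwd_left (h2 : S_rel) {E F : DGraph} (hE : E.InfBranch) (hF : F.InfBranch)
    (I : AIso E F) (v : E.V) (w : F.V) (h : I.Rel v w) (x : E.V) : I.Rel x w ↔ x ∈ cp v := by
  obtain ⟨r1, r2, -⟩ := h2 E F hE hF I
  constructor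
  · intro hx
    exact ⟨(r2 v w x w h hx).2 ReflTransGen.refl, (r2 x w v w hx h).2 ReflTransGen.refl⟩
  · intro hx
    obtain ⟨w', hw'⟩ := r1 x
    have hc : w' ∈ cp w := ⟨(r2 v w x w' h hw').1 hx.1, (r2 x w' v w hw' h).1 hx.2⟩
    refine ⟨?_, ?_⟩
    · rw [← fwd_dn hc]
      exact hw'.1
    · rw [fwd_dn hx]
      exact h.2

theorem fwd_right (h2 : S_rel) {E F : DGraph} (hE : E.InfBranch) (hF : F.InfBranch)
    (I : AIso E F) (v : E.V) (w : F.V) (h : I.Rel v w) (y : F.V) : I.Rel v y ↔ y ∈ cp w := by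
  rw [← fwd_left h2 hF hE I.symm w v (fwd_symm I v w h) y]
  exact ⟨fun hy => ⟨hy.2, hy.1⟩, fun hy => ⟨hy.2, hy.1⟩⟩

theorem p_fwd (h1 : S_equiv) (h2 : S_rel) (h3 : S_card) (h4 : S_cyc) : S_fwd := by
  intro E F hE hF I
  obtain ⟨r1, r2, -⟩ := h2 E F hE hF I
  obtain ⟨s1, -, -⟩ := h2 F E hF hE I.symm
  obtain ⟨β, hβ⟩ := h1 E.V F.V I.Rel r1
    (fun y => by
      obtain ⟨x, hx⟩ := s1 y
      exact ⟨x, hx.2, hx.1⟩)
    (fun v w h => by
      have hc : Cardinal.mk (cp v) = Cardinal.mk (cp w) :=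
        le_antisymm (h3 E F hE hF I v w h) (h3 F E hF hE I.symm w v (fwd_symm I v w h))
      obtain ⟨e⟩ := Cardinal.eq.1 hc
      exact ⟨(Equiv.subtypeEquivRight (fwd_left h2 hE hF I v w h)).trans
        (e.trans (Equiv.subtypeEquivRight (fwd_right h2 hE hF I v w h)).symm)⟩)
    (fun x y x' y' hxy hx'y hxy' =>
      (fwd_left h2 hE hF I x y' hxy' x').2 ((fwd_left h2 hE hF I x y hxy x').1 hx'y))
  refine ⟨β, fun v w => ?_⟩
  have hrt : ReflTransGen E.Step v w ↔ ReflTransGen F.Step (β v) (β w) :=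
    r2 v (β v) w (β w) (hβ v) (hβ w)
  by_cases hvw : v = w
  · subst hvw
    exact ⟨fun h => h4 E F hE hF I v (β v) (hβ v) h,
      fun h => h4 F E hF hE I.symm (β v) v (fwd_symm I v (β v) (hβ v)) h⟩
  · have hvw' : β v ≠ β w := fun h => hvw (β.injective h)
    rw [reflTransGen_iff_eq_or_transGen, reflTransGen_iff_eq_or_transGen] at hrt
    constructor
    · intro h
      rcases hrt.1 (Or.inr h) with h' | h'
      · exact absurd h'.symm hvw'
      · exact h'
    · intro h
      rcases hrt.2 (Or.inr h) with h' | h'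
      · exact absurd h'.symm hvw
      · exact h'

end Pool.Agent.Lib.MP_8f60dc_al.IB
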