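import Pool.Agent.Lib.MP_8f60dc_al.IB.Stm

/-!
# Infinitely branching graphs: idempotents modulo commutators
-/

set_option autoImplicit false

namespace Pool.Agent.Lib.MP_8f60dc_al.IB

open Relation

theorem idem_TP_SP0 {E : DGraph} {R : Type*} [NonUnitalRing R] {l : Fam E R} (hl : IsLeavitt l)
    (w : E.V) : ∀ (q p : List E.Ed), q.length = p.length → q ≠ p → l.TP w q * l.SP w p = 0
  | [], [], _, h => absurd rfl h
  | [], _ :: _, h, _ => by simp at h
  | _ :: _, [], h, _ => by simp at h
  | e :: q, f :: p, h, hne => by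
    rw [Fam.TP_cons, Fam.SP_cons, mul_assoc, ← mul_assoc (l.T e)]
    by_cases hef : e = f
    · subst hef
      have h1 : q ≠ p := fun h' => hne (by rw [h'])
      have h2 : q.length = p.length := by simpa using h
      rw [hl.ts]
      rcases hl.P_SP_or (E.rng e) w p with h3 | h3
      · rw [h3, idem_TP_SP0 hl w q p h2 h1]
      · rw [h3, mul_zero]
    · rw [hl.ts0 e f hef, zero_mul, mul_zero]

section

variable {E : DGraph} (D : Module.End ℂ (LPA E))

theorem idem_poly (N : Submodule ℂ (LPA E)) (hN : ∀ y ∈ N, D y ∈ N) (y : LPA E) (hy : D y ∈ N)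
    (q : Polynomial ℂ) : Polynomial.aeval D q y - q.eval 0 • y ∈ N := by
  induction q using Polynomial.induction_on' with
  | add p q hp hq =>
    have h : Polynomial.aeval D (p + q) y - (p + q).eval 0 • y =
        (Polynomial.aeval D p y - p.eval 0 • y) + (Polynomial.aeval D q y - q.eval 0 • y) := by
      rw [map_add, LinearMap.add_apply, Polynomial.eval_add, add_smul]
      abel
    rw [h]
    exact N.add_mem hp hq
  | monomial n a =>
    rw [Polynomial.aeval_monomial, Polynomial.eval_monomial, Module.End.mul_apply,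
      Module.algebraMap_end_apply]
    cases n with
    | zero =>
      rw [pow_zero, pow_zero, mul_one, Module.End.one_apply, sub_self]
      exact N.zero_mem
    | succ n =>
      rw [zero_pow (Nat.succ_ne_zero n), mul_zero, zero_smul, sub_zero]
      apply N.smul_mem
      induction n with
      | zero => rw [zero_add, pow_one]; exact hy
      | succ n ih => rw [pow_succ', Module.End.mul_apply]; exact hN _ ih

theorem idem_poly0 (y : LPA E) (hy : D y = 0) (q : Polynomial ℂ) :
    Polynomial.aeval D q y = q.eval 0 • y := by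
  have h0 : ∀ z ∈ (⊥ : Submodule ℂ (LPA E)), D z ∈ (⊥ : Submodule ℂ (LPA E)) := by
    intro z hz
    rw [(Submodule.mem_bot ℂ).1 hz, map_zero]
    exact Submodule.zero_mem _
  have h := idem_poly D ⊥ h0 y (by rw [hy]; exact Submodule.zero_mem _) q
  exact sub_eq_zero.1 ((Submodule.mem_bot ℂ).1 h)

end

/-- idempotents modulo commutators -/
theorem p_idem (h1 : S_der) : S_idem := by
  classical
  intro E K K' p hp hpK
  obtain ⟨D₀, hD, hDw⟩ := h1 E
  obtain ⟨D, hDD⟩ : ∃ D : Module.End ℂ (LPA E), D = D₀ := ⟨D₀, rfl⟩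
  rw [← hDD] at hD hDw
  clear hDD D₀
  -- `D` preserves `N`
  have hcomm : ∀ y ∈ comm E, D y ∈ comm E := by
    intro y hy
    refine Submodule.span_induction (p := fun y _ => D y ∈ comm E) ?_ ?_ ?_ ?_ hy
    · rintro _ ⟨a, b, rfl⟩
      have h2 : D (a * b - b * a) = (D a * b - b * D a) + (a * D b - D b * a) := by
        rw [map_sub, hD, hD]
        abel
      rw [h2]
      exact Submodule.add_mem _ (Submodule.subset_span ⟨_, _, rfl⟩)
        (Submodule.subset_span ⟨_, _, rfl⟩)
    · rw [map_zero]; exact Submodule.zero_mem _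
    · intro a b _ _ ha hb
      rw [map_add]; exact Submodule.add_mem _ ha hb
    · intro c a _ ha
      rw [map_smul]; exact Submodule.smul_mem _ _ ha
  have hidl : ∀ y ∈ idl K', D y ∈ idl K' := by
    intro y hy
    refine Submodule.span_induction (p := fun y _ => D y ∈ idl K') ?_ ?_ ?_ ?_ hy
    · rintro _ ⟨v, a, b, hv, hval, rfl⟩
      rw [hDw]
      exact Submodule.smul_mem _ _ (Submodule.subset_span ⟨v, a, b, hv, hval, rfl⟩)
    · rw [map_zero]; exact Submodule.zero_mem _
    · intro a b _ _ ha hb
      rw [map_add]; exact Submodule.add_mem _ ha hb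
    · intro c a _ ha
      rw [map_smul]; exact Submodule.smul_mem _ _ ha
  have hN : ∀ y ∈ idl K' ⊔ comm E, D y ∈ idl K' ⊔ comm E := by
    intro y hy
    obtain ⟨a, ha, b, hb, rfl⟩ := Submodule.mem_sup.1 hy
    rw [map_add]
    exact Submodule.add_mem_sup (hidl a ha) (hcomm b hb)
  -- `D p` is a commutator
  have hDp : D p ∈ comm E := by
    have h2 : D p = D p * p + p * D p := by
      conv_lhs => rw [← hp]
      rw [hD]
    have h3 : p * (D p * p) = 0 := by
      have h4 : p * D p = p * (D p * p) + p * D p := by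
        conv_lhs => rw [h2]
        rw [mul_add, ← mul_assoc p p, hp]
      have h5 : 0 + p * D p = p * (D p * p) + p * D p := by rw [zero_add]; exact h4
      exact (add_right_cancel h5).symm
    have h6 : D p = (D p * p - p * D p) * p - p * (D p * p - p * D p) := by
      rw [sub_mul, mul_sub, mul_assoc (D p), hp, ← mul_assoc p p, hp, mul_assoc p (D p), h3,
        sub_zero, zero_sub, sub_neg_eq_add]
      exact h2
    rw [h6]
    exact Submodule.subset_span ⟨_, _, rfl⟩
  -- words of degree zero
  let W : Submodule ℂ (LPA E) :=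
    Submodule.span ℂ {y | ∃ v a b, v ∈ K ∧ Valid v a b ∧ a.length = b.length ∧ y = wd v a b}
  have hW0 : ∀ y ∈ W, D y = 0 := by
    intro y hy
    refine Submodule.span_induction (p := fun y _ => D y = 0) ?_ ?_ ?_ ?_ hy
    · rintro _ ⟨v, a, b, _, _, hab, rfl⟩
      rw [hDw, hab, sub_self, zero_smul]
    · exact map_zero _
    · intro a b _ _ ha hb
      rw [map_add, ha, hb, add_zero]
    · intro c a _ ha
      rw [map_smul, ha, smul_zero]
  have hW1 : ∀ y ∈ W, ∀ q : Polynomial ℂ, Polynomial.aeval D q y ∈ W := by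
    intro y hy q
    rw [idem_poly0 D y (hW0 y hy)]
    exact W.smul_mem _ hy
  have hex : ∀ y ∈ idl K, ∃ q : Polynomial ℂ, q.eval 0 = 1 ∧ Polynomial.aeval D q y ∈ W := by
    intro y hy
    refine Submodule.span_induction
      (p := fun y _ => ∃ q : Polynomial ℂ, q.eval 0 = 1 ∧ Polynomial.aeval D q y ∈ W)
      ?_ ?_ ?_ ?_ hy
    · rintro _ ⟨v, a, b, hv, hval, rfl⟩
      by_cases hab : a.length = b.length
      · refine ⟨1, Polynomial.eval_one, ?_⟩
        rw [map_one]
        exact Submodule.subset_span ⟨v, a, b, hv, hval, hab, rfl⟩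
      · have h2 : ((a.length : ℂ) - (b.length : ℂ)) ≠ 0 := by
          intro h3
          apply hab
          exact_mod_cast sub_eq_zero.1 h3
        refine ⟨1 - Polynomial.C ((a.length : ℂ) - (b.length : ℂ))⁻¹ * Polynomial.X, by simp, ?_⟩
        have h3 : Polynomial.aeval D
            (1 - Polynomial.C ((a.length : ℂ) - (b.length : ℂ))⁻¹ * Polynomial.X)
            (wd v a b) = 0 := by
          rw [map_sub, map_one, map_mul, Polynomial.aeval_C, Polynomial.aeval_X,
            LinearMap.sub_apply, Module.End.one_apply, Module.End.mul_apply,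
            Module.algebraMap_end_apply, hDw, smul_smul, inv_mul_cancel₀ h2, one_smul, sub_self]
        rw [h3]
        exact W.zero_mem
    · exact ⟨1, Polynomial.eval_one, by rw [map_zero]; exact W.zero_mem⟩
    · rintro a b _ _ ⟨q, hq, hqa⟩ ⟨r, hr, hrb⟩
      refine ⟨q * r, by rw [Polynomial.eval_mul, hq, hr, one_mul], ?_⟩
      rw [map_add]
      apply W.add_mem
      · rw [mul_comm, map_mul, Module.End.mul_apply]
        exact hW1 _ hqa r
      · rw [map_mul, Module.End.mul_apply]
        exact hW1 _ hrb q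
    · rintro c a _ ⟨q, hq, hqa⟩
      exact ⟨q, hq, by rw [map_smul]; exact W.smul_mem _ hqa⟩
  obtain ⟨q, hq0, hqp⟩ := hex p hpK
  have h2 := idem_poly D _ hN p (Submodule.mem_sup_right hDp) q
  rw [hq0, one_smul] at h2
  -- words of degree zero modulo commutators
  have hfin : ∀ y ∈ W, y ∈ Submodule.span ℂ ((lf E).P '' (K \ K')) ⊔ (idl K' ⊔ comm E) := by
    intro y hy
    refine Submodule.span_induction
      (p := fun y _ => y ∈ Submodule.span ℂ ((lf E).P '' (K \ K')) ⊔ (idl K' ⊔ comm E))
      ?_ ?_ ?_ ?_ hy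
    · rintro _ ⟨v, a, b, hv, hval, hab, rfl⟩
      have h3 : wd v a b = (lf E).TP v b * (lf E).SP v a +
          ((lf E).SP v a * (lf E).TP v b - (lf E).TP v b * (lf E).SP v a) := by
        unfold wd
        abel
      rw [h3]
      apply Submodule.add_mem
      · by_cases hba : b = a
        · subst hba
          obtain ⟨⟨u, hu⟩, _⟩ := hval
          rw [lf_leavitt.TP_SP hu]
          by_cases hvK : v ∈ K'
          · apply Submodule.mem_sup_right
            apply Submodule.mem_sup_left
            refine Submodule.subset_span ⟨v, [], [], hvK, ⟨⟨v, rfl⟩, ⟨v, rfl⟩⟩, ?_⟩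
            exact (lf_leavitt.idem v).symm
          · exact Submodule.mem_sup_left (Submodule.subset_span ⟨v, ⟨hv, hvK⟩, rfl⟩)
        · rw [idem_TP_SP0 lf_leavitt v b a hab.symm hba]
          exact Submodule.zero_mem _
      · exact Submodule.mem_sup_right (Submodule.mem_sup_right
          (Submodule.subset_span ⟨_, _, rfl⟩))
    · exact Submodule.zero_mem _
    · intro a b _ _ ha hb
      exact Submodule.add_mem _ ha hb
    · intro c a _ ha
      exact Submodule.smul_mem _ _ ha
  have h3 : p = Polynomial.aeval D q p - (Polynomial.aeval D q p - p) := by abel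
  rw [h3]
  exact Submodule.sub_mem _ (hfin _ hqp) (Submodule.mem_sup_right h2)

end Pool.Agent.Lib.MP_8f60dc_al.IB
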