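import Pool.Agent.Lib.MP_8f60dc_al.IB.Stm

/-!
# The span of the words through a hereditary set is an ideal
-/

set_option autoImplicit false

namespace Pool.Agent.Lib.MP_8f60dc_al.IB

variable {E : DGraph}

/-- All words through vertices of `H` are in `idl H`. -/
theorem idlId_wd {H : Set E.V} {v : E.V} (hv : v ∈ H) (p q : List E.Ed) :
    (lf E).SP v p * (lf E).TP v q ∈ idl H := by
  by_cases hp : ∃ a, IsPath E p a v
  · by_cases hq : ∃ b, IsPath E q b v
    · exact Submodule.subset_span ⟨v, p, q, hv, ⟨hp, hq⟩, rfl⟩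
    · rw [(lf_leavitt (E := E)).TP_zero (not_exists.1 hq), mul_zero]
      exact Submodule.zero_mem _
  · rw [(lf_leavitt (E := E)).SP_zero (not_exists.1 hp), zero_mul]
    exact Submodule.zero_mem _

theorem idlId_lP (H : Set E.V) (u : E.V) : ∀ x ∈ idl H, (lf E).P u * x ∈ idl H := by
  apply lmul_span
  rintro _ ⟨v, p, q, hv, -, rfl⟩
  rw [wd, ← mul_assoc]
  rcases (lf_leavitt (E := E)).P_SP_or u v p with h | h
  · rw [h]
    exact idlId_wd hv p q
  · rw [h, zero_mul]
    exact Submodule.zero_mem _

theorem idlId_lS (H : Set E.V) (e : E.Ed) : ∀ x ∈ idl H, (lf E).S e * x ∈ idl H := by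
  apply lmul_span
  rintro _ ⟨v, p, q, hv, -, rfl⟩
  rw [wd, ← mul_assoc, ← Fam.SP_cons]
  exact idlId_wd hv _ q

theorem idlId_lT {H : Set E.V} (hH : Hered E H) (e : E.Ed) :
    ∀ x ∈ idl H, (lf E).T e * x ∈ idl H := by
  apply lmul_span
  rintro _ ⟨v, p, q, hv, -, rfl⟩
  rw [wd]
  cases p with
  | nil =>
    rw [Fam.SP_nil, (lf_leavitt (E := E)).P_TP]
    by_cases h : E.src e = v
    · subst h
      rw [(lf_leavitt (E := E)).T_TP, ← (lf_leavitt (E := E)).P_TP]
      exact idlId_wd (hH _ _ ⟨e, rfl, rfl⟩ hv) [] _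
    · rw [(lf_leavitt (E := E)).T_TP0 h]
      exact Submodule.zero_mem _
  | cons f p =>
    rw [Fam.SP_cons, mul_assoc]
    by_cases h : e = f
    · subst h
      rw [(lf_leavitt (E := E)).TS_assoc]
      exact idlId_lP H _ _ (idlId_wd hv p q)
    · rw [(lf_leavitt (E := E)).TS0_assoc h]
      exact Submodule.zero_mem _

theorem idlId_rP (H : Set E.V) (u : E.V) : ∀ x ∈ idl H, x * (lf E).P u ∈ idl H := by
  apply rmul_span
  rintro _ ⟨v, p, q, hv, -, rfl⟩
  rw [wd, mul_assoc]
  by_cases h : ∃ x, IsPath E q x v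
  · obtain ⟨x, hx⟩ := h
    by_cases h1 : x = u
    · rw [← h1, (lf_leavitt (E := E)).TP_P hx]
      exact idlId_wd hv p q
    · rw [← (lf_leavitt (E := E)).TP_P hx, mul_assoc, (lf_leavitt (E := E)).orth _ _ h1, mul_zero, mul_zero]
      exact Submodule.zero_mem _
  · rw [(lf_leavitt (E := E)).TP_zero (not_exists.1 h), zero_mul, mul_zero]
    exact Submodule.zero_mem _

theorem idlId_rT (H : Set E.V) (e : E.Ed) : ∀ x ∈ idl H, x * (lf E).T e ∈ idl H := by
  apply rmul_span
  rintro _ ⟨v, p, q, hv, -, rfl⟩
  rw [wd, mul_assoc, ← Fam.TP_cons]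
  exact idlId_wd hv p _

theorem idlId_SP_S (e : E.Ed) : ∀ p : List E.Ed,
    (lf E).SP (E.src e) p * (lf E).S e = (lf E).SP (E.rng e) (p ++ [e])
  | [] => by
    rw [List.nil_append, Fam.SP_cons, Fam.SP_nil, Fam.SP_nil, (lf_leavitt (E := E)).ps,
      (lf_leavitt (E := E)).sp]
  | f :: p => by
    rw [List.cons_append, Fam.SP_cons, Fam.SP_cons, mul_assoc, idlId_SP_S e p]

theorem idlId_rS {H : Set E.V} (hH : Hered E H) (e : E.Ed) :
    ∀ x ∈ idl H, x * (lf E).S e ∈ idl H := by
  apply rmul_span
  rintro _ ⟨v, p, q, hv, -, rfl⟩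
  rw [wd]
  cases q with
  | nil =>
    rw [Fam.TP_nil, (lf_leavitt (E := E)).SP_P]
    by_cases h : E.src e = v
    · subst h
      rw [idlId_SP_S, ← (lf_leavitt (E := E)).SP_P]
      exact idlId_wd (hH _ _ ⟨e, rfl, rfl⟩ hv) _ []
    · rw [← (lf_leavitt (E := E)).SP_P, mul_assoc, (lf_leavitt (E := E)).PS0 h, mul_zero]
      exact Submodule.zero_mem _
  | cons f q =>
    rw [Fam.TP_cons, mul_assoc, mul_assoc]
    by_cases h : f = e
    · subst h
      rw [(lf_leavitt (E := E)).ts, ← mul_assoc]
      exact idlId_rP H _ _ (idlId_wd hv p q)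
    · rw [(lf_leavitt (E := E)).ts0 _ _ h, mul_zero, mul_zero]
      exact Submodule.zero_mem _

/-- The span of the words through the vertices of a hereditary set is an ideal. -/
theorem p_idlId : S_idlId := by
  intro E H hH x y hy
  constructor
  · let X : Submodule ℂ (LPA E) :=
      { carrier := {x | ∀ y ∈ idl H, x * y ∈ idl H}
        add_mem' := fun {a b} ha hb y hy => by
          rw [add_mul]
          exact Submodule.add_mem _ (ha y hy) (hb y hy)
        zero_mem' := fun y _ => by
          rw [zero_mul]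
          exact Submodule.zero_mem _
        smul_mem' := fun c a ha y hy => by
          rw [smul_mul_assoc]
          exact Submodule.smul_mem _ c (ha y hy) }
    have h : x ∈ X := by
      apply lpa_top X
      · exact fun v y hy => idlId_lP H v y hy
      · exact fun e y hy => idlId_lS H e y hy
      · exact fun e y hy => idlId_lT hH e y hy
      · intro v x hx y hy
        rw [mul_assoc]
        exact idlId_lP H v _ (hx y hy)
      · intro v x hx y hy
        rw [mul_assoc]
        exact idlId_lS H v _ (hx y hy)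
      · intro v x hx y hy
        rw [mul_assoc]
        exact idlId_lT hH v _ (hx y hy)
    exact h y hy
  · let X : Submodule ℂ (LPA E) :=
      { carrier := {x | ∀ y ∈ idl H, y * x ∈ idl H}
        add_mem' := fun {a b} ha hb y hy => by
          rw [mul_add]
          exact Submodule.add_mem _ (ha y hy) (hb y hy)
        zero_mem' := fun y _ => by
          rw [mul_zero]
          exact Submodule.zero_mem _
        smul_mem' := fun c a ha y hy => by
          rw [mul_smul_comm]
          exact Submodule.smul_mem _ c (ha y hy) }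
    have h : x ∈ X := by
      apply lpa_top X
      · exact fun v y hy => idlId_rP H v y hy
      · exact fun e y hy => idlId_rS hH e y hy
      · exact fun e y hy => idlId_rT H e y hy
      · intro v x hx y hy
        rw [← mul_assoc]
        exact hx _ (idlId_rP H v y hy)
      · intro v x hx y hy
        rw [← mul_assoc]
        exact hx _ (idlId_rS hH v y hy)
      · intro v x hx y hy
        rw [← mul_assoc]
        exact hx _ (idlId_rT H v y hy)
    exact h y hy

end Pool.Agent.Lib.MP_8f60dc_al.IB
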