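import Pool.Agent.Lib.MP_8f60dc_al.IB.Stm

/-!
# Infinitely branching graphs: piece noreg (helper57)
-/

set_option autoImplicit false

namespace Pool.Agent.Lib.MP_8f60dc_al.IB

open Relation

theorem p_noreg : S_noreg := by
  intro E hE v s ⟨e, he⟩ h
  have h1 : TransGen E.Step v (E.rng e) := TransGen.single ⟨e, (h e).1 he, rfl⟩
  refine hE v (E.rng e) h1 (s.finite_toSet.subset fun f hf => ?_)
  exact (h f).2 hf.1

end Pool.Agent.Lib.MP_8f60dc_al.IB
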