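import Pool.Agent.Lib.MP_8f60dc_al.IB.Stm

/-!
# The old edges from the new family
-/

set_option autoImplicit false

namespace Pool.Agent.Lib.MP_8f60dc_al.IB

section

variable {E : DGraph} (c : Choice E) {R : Type} [NonUnitalRing R] {l : Fam E R}

theorem plusG_Sa (κ : NewEd E × ℕ) : (c.plus l).S (Sum.inl (c.a κ)) =
    l.S (c.a κ) - l.S (c.a κ) * (c.M l κ * c.N l κ) +
      l.S (c.a (nx κ)) * (c.M l (nx κ) * c.N l κ) := by
  have h : ∃ κ', c.a κ' = c.a κ := ⟨κ, rfl⟩
  have h1 : h.choose = κ := c.ainj h.choose_spec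
  classical
  change (if h : ∃ κ', c.a κ' = c.a κ then
        l.S (c.a κ) - l.S (c.a κ) * (c.M l h.choose * c.N l h.choose) +
          l.S (c.a (nx h.choose)) * (c.M l (nx h.choose) * c.N l h.choose)
      else l.S (c.a κ)) = _
  rw [dif_pos h, h1]

theorem plusG_Ta (κ : NewEd E × ℕ) : (c.plus l).T (Sum.inl (c.a κ)) =
    l.T (c.a κ) - c.M l κ * c.N l κ * l.T (c.a κ) +
      c.M l κ * c.N l (nx κ) * l.T (c.a (nx κ)) := by
  have h : ∃ κ', c.a κ' = c.a κ := ⟨κ, rfl⟩
  have h1 : h.choose = κ := c.ainj h.choose_spec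
  classical
  change (if h : ∃ κ', c.a κ' = c.a κ then
        l.T (c.a κ) - c.M l h.choose * c.N l h.choose * l.T (c.a κ) +
          c.M l h.choose * c.N l (nx h.choose) * l.T (c.a (nx h.choose))
      else l.T (c.a κ)) = _
  rw [dif_pos h, h1]

theorem plusG_Se {e : E.Ed} (h : ¬ ∃ κ, c.a κ = e) :
    (c.plus l).S (Sum.inl e) = l.S e := by
  classical
  change (if h : ∃ κ, c.a κ = e then
        l.S e - l.S e * (c.M l h.choose * c.N l h.choose) +
          l.S (c.a (nx h.choose)) * (c.M l (nx h.choose) * c.N l h.choose)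
      else l.S e) = _
  rw [dif_neg h]

theorem plusG_Te {e : E.Ed} (h : ¬ ∃ κ, c.a κ = e) :
    (c.plus l).T (Sum.inl e) = l.T e := by
  classical
  change (if h : ∃ κ, c.a κ = e then
        l.T e - c.M l h.choose * c.N l h.choose * l.T e +
          c.M l h.choose * c.N l (nx h.choose) * l.T (c.a (nx h.choose))
      else l.T e) = _
  rw [dif_neg h]

theorem plusG_NM (hl : IsLeavitt l) (κ : NewEd E × ℕ) :
    c.N l κ * c.M l κ = l.P κ.1.1.2.1 := hl.TP_SP (c.path κ)

theorem plusG_MP (hl : IsLeavitt l) (κ : NewEd E × ℕ) :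
    c.M l κ * l.P κ.1.1.2.1 = c.M l κ := hl.SP_P _ _

theorem plusG_PN (hl : IsLeavitt l) (κ : NewEd E × ℕ) :
    l.P κ.1.1.2.1 * c.N l κ = c.N l κ := hl.P_TP _ _

/-- The part of the edge outside the range of the word. -/
theorem plusG_S1 (hl : IsLeavitt l) (κ : NewEd E × ℕ) :
    (c.plus l).S (Sum.inl (c.a κ)) -
      (c.plus l).S (Sum.inl (c.a κ)) * (c.M l κ * c.N l κ) =
    l.S (c.a κ) - l.S (c.a κ) * (c.M l κ * c.N l κ) := by
  have h1 : c.N l κ * (c.M l κ * c.N l κ) = c.N l κ := by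
    rw [← mul_assoc, plusG_NM c hl, plusG_PN c hl]
  rw [plusG_Sa, add_mul, sub_mul]
  simp only [mul_assoc, h1]
  abel

theorem plusG_T1 (hl : IsLeavitt l) (κ : NewEd E × ℕ) :
    (c.plus l).T (Sum.inl (c.a κ)) -
      c.M l κ * c.N l κ * (c.plus l).T (Sum.inl (c.a κ)) =
    l.T (c.a κ) - c.M l κ * c.N l κ * l.T (c.a κ) := by
  have h1 : ∀ x : R, c.N l κ * (c.M l κ * x) = l.P κ.1.1.2.1 * x := fun x => by
    rw [← mul_assoc, plusG_NM c hl]
  have h2 : ∀ x : R, c.M l κ * (l.P κ.1.1.2.1 * x) = c.M l κ * x := fun x => by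
    rw [← mul_assoc, plusG_MP c hl]
  rw [plusG_Ta, mul_add, mul_sub]
  simp only [mul_assoc, h1, h2]
  abel

theorem plusG_S2 (hl : IsLeavitt l) (κ : NewEd E × ℕ) :
    (c.plus l).S (Sum.inl (c.a κ)) * c.M l κ = l.S (c.a (nx κ)) * c.M l (nx κ) := by
  rw [plusG_Sa, add_mul, sub_mul]
  simp only [mul_assoc, plusG_NM c hl, plusG_MP c hl]
  have h := plusG_MP c hl (nx κ)
  change c.M l (nx κ) * l.P κ.1.1.2.1 = c.M l (nx κ) at h
  rw [h, sub_self, zero_add]

theorem plusG_T2 (hl : IsLeavitt l) (κ : NewEd E × ℕ) :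
    c.N l κ * (c.plus l).T (Sum.inl (c.a κ)) = c.N l (nx κ) * l.T (c.a (nx κ)) := by
  have h1 : ∀ x : R, c.N l κ * (c.M l κ * x) = l.P κ.1.1.2.1 * x := fun x => by
    rw [← mul_assoc, plusG_NM c hl]
  have h2 : ∀ x : R, l.P κ.1.1.2.1 * (c.N l κ * x) = c.N l κ * x := fun x => by
    rw [← mul_assoc, plusG_PN c hl]
  have h3 : ∀ x : R, l.P κ.1.1.2.1 * (c.N l (nx κ) * x) = c.N l (nx κ) * x := fun x => by
    have h := plusG_PN c hl (nx κ)
    change l.P κ.1.1.2.1 * c.N l (nx κ) = c.N l (nx κ) at h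
    rw [← mul_assoc, h]
  rw [plusG_Ta, mul_add, mul_sub]
  simp only [mul_assoc, h1, h2, h3]
  rw [sub_self, zero_add]

theorem plusG_SP (X : NonUnitalSubring R) (hP : ∀ v, l.P v ∈ X) (u : E.V) :
    ∀ p : List E.Ed, (∀ e ∈ p, l.S e ∈ X ∧ l.T e ∈ X) → l.SP u p ∈ X ∧ l.TP u p ∈ X
  | [], _ => ⟨hP u, hP u⟩
  | e :: p, h => by
    have h1 := plusG_SP X hP u p fun f hf => h f (List.mem_cons_of_mem _ hf)
    have h2 := h e List.mem_cons_self
    exact ⟨X.mul_mem h2.1 h1.1, X.mul_mem h1.2 h2.2⟩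

end

theorem p_plusG : S_plusG := by
  intro E c R _ l hl X hP hS hT
  have hold : ∀ e, (¬ ∃ κ, c.a κ = e) → l.S e ∈ X ∧ l.T e ∈ X := by
    intro e he
    have h1 := hS (Sum.inl e)
    have h2 := hT (Sum.inl e)
    rw [plusG_Se c he] at h1
    rw [plusG_Te c he] at h2
    exact ⟨h1, h2⟩
  have key : ∀ n : ℕ, ∀ κ, c.enc κ = n → l.S (c.a κ) ∈ X ∧ l.T (c.a κ) ∈ X := by
    intro n
    induction n using Nat.strong_induction_on with
    | _ n ih =>
      intro κ hκ
      have hMN : ∀ κ', c.enc κ' ≤ n → c.M l κ' ∈ X ∧ c.N l κ' ∈ X := by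
        intro κ' h'
        refine plusG_SP X hP _ _ fun e he => ?_
        by_cases h1 : ∃ κ'', c.a κ'' = e
        · obtain ⟨κ'', rfl⟩ := h1
          have h2 : c.enc κ'' < c.enc κ' := by
            by_contra h3
            exact c.avoid κ' κ'' (not_lt.1 h3) he
          exact ih (c.enc κ'') (lt_of_lt_of_le h2 h') κ'' rfl
        · exact hold e h1
      have hm := hMN κ hκ.le
      have hMNm := X.mul_mem hm.1 hm.2
      -- the parts of the edge inside the range of the word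
      have hin : l.S (c.a κ) * (c.M l κ * c.N l κ) ∈ X ∧
          c.M l κ * c.N l κ * l.T (c.a κ) ∈ X := by
        obtain ⟨g, i⟩ := κ
        cases i with
        | zero =>
          have h1 : l.S (c.a (g, 0)) * c.M l (g, 0) ∈ X := hS (Sum.inr g)
          have h2 : c.N l (g, 0) * l.T (c.a (g, 0)) ∈ X := hT (Sum.inr g)
          rw [← mul_assoc, mul_assoc (c.M l (g, 0))]
          exact ⟨X.mul_mem h1 hm.2, X.mul_mem hm.1 h2⟩
        | succ i =>
          have h0 : c.enc (g, i) ≤ n := by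
            rw [← hκ]
            exact (c.mono g i).le
          have hm' := hMN (g, i) h0
          have h1 := plusG_S2 c hl (g, i)
          have h2 := plusG_T2 c hl (g, i)
          have h3 := X.mul_mem (hS (Sum.inl (c.a (g, i)))) hm'.1
          have h4 := X.mul_mem hm'.2 (hT (Sum.inl (c.a (g, i))))
          rw [h1] at h3
          rw [h2] at h4
          change l.S (c.a (g, i + 1)) * c.M l (g, i + 1) ∈ X at h3
          change c.N l (g, i + 1) * l.T (c.a (g, i + 1)) ∈ X at h4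
          rw [← mul_assoc, mul_assoc (c.M l (g, i + 1))]
          exact ⟨X.mul_mem h3 hm.2, X.mul_mem hm.1 h4⟩
      constructor
      · have h1 := X.sub_mem (hS (Sum.inl (c.a κ))) (X.mul_mem (hS (Sum.inl (c.a κ))) hMNm)
        rw [plusG_S1 c hl] at h1
        have h2 := X.add_mem h1 hin.1
        rwa [sub_add_cancel] at h2
      · have h1 := X.sub_mem (hT (Sum.inl (c.a κ))) (X.mul_mem hMNm (hT (Sum.inl (c.a κ))))
        rw [plusG_T1 c hl] at h1
        have h2 := X.add_mem h1 hin.2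
        rwa [sub_add_cancel] at h2
  intro e
  by_cases h : ∃ κ, c.a κ = e
  · obtain ⟨κ, rfl⟩ := h
    exact key _ κ rfl
  · exact hold e h

end Pool.Agent.Lib.MP_8f60dc_al.IB
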