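import Pool.Agent.Lib.MP_8f60dc_al.IB.Stm

/-!
# The family of the amplification is a Leavitt family
-/

set_option autoImplicit false

namespace Pool.Agent.Lib.MP_8f60dc_al.IB

open Relation

section

variable {E : DGraph}

theorem plusL_nx_ne (κ : NewEd E × ℕ) : nx κ ≠ κ := by
  intro h
  have := congrArg Prod.snd h
  simp [nx] at this

theorem plusL_nx_inj {κ κ' : NewEd E × ℕ} (h : nx κ = nx κ') : κ = κ' := by
  have h1 := congrArg Prod.fst h
  have h2 := congrArg Prod.snd h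
  simp only [nx, Nat.add_right_cancel_iff] at h1 h2
  exact Prod.ext h1 h2

theorem plusL_nx_nx {κ κ' : NewEd E × ℕ} (h : κ = nx κ') : nx κ ≠ κ' := by
  intro h'
  have h1 := congrArg Prod.snd h
  have h2 := congrArg Prod.snd h'
  simp only [nx] at h1 h2
  omega

theorem plusL_nx_zero (g : NewEd E) (κ : NewEd E × ℕ) : (g, 0) ≠ nx κ := by
  intro h
  have := congrArg Prod.snd h
  simp [nx] at this

variable (c : Choice E) {R : Type} [NonUnitalRing R] {l : Fam E R}

theorem plusL_Sa (κ : NewEd E × ℕ) : (c.plus l).S (Sum.inl (c.a κ)) =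
    l.S (c.a κ) - l.S (c.a κ) * (c.M l κ * c.N l κ) +
      l.S (c.a (nx κ)) * (c.M l (nx κ) * c.N l κ) := by
  have h : ∃ κ', c.a κ' = c.a κ := ⟨κ, rfl⟩
  have h1 : h.choose = κ := c.ainj h.choose_spec
  classical
  change (if h : ∃ κ', c.a κ' = c.a κ then
        l.S (c.a κ) - l.S (c.a κ) * (c.M l h.choose * c.N l h.choose) +
          l.S (c.a (nx h.choose)) * (c.M l (nx h.choose) * c.N l h.choose)
      else l.S (c.a κ)) = _
  rw [dif_pos h, h1]

theorem plusL_Ta (κ : NewEd E × ℕ) : (c.plus l).T (Sum.inl (c.a κ)) =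
    l.T (c.a κ) - c.M l κ * c.N l κ * l.T (c.a κ) +
      c.M l κ * c.N l (nx κ) * l.T (c.a (nx κ)) := by
  have h : ∃ κ', c.a κ' = c.a κ := ⟨κ, rfl⟩
  have h1 : h.choose = κ := c.ainj h.choose_spec
  classical
  change (if h : ∃ κ', c.a κ' = c.a κ then
        l.T (c.a κ) - c.M l h.choose * c.N l h.choose * l.T (c.a κ) +
          c.M l h.choose * c.N l (nx h.choose) * l.T (c.a (nx h.choose))
      else l.T (c.a κ)) = _
  rw [dif_pos h, h1]

theorem plusL_Se {e : E.Ed} (h : ¬ ∃ κ, c.a κ = e) :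
    (c.plus l).S (Sum.inl e) = l.S e := by
  classical
  change (if h : ∃ κ, c.a κ = e then
        l.S e - l.S e * (c.M l h.choose * c.N l h.choose) +
          l.S (c.a (nx h.choose)) * (c.M l (nx h.choose) * c.N l h.choose)
      else l.S e) = _
  rw [dif_neg h]

theorem plusL_Te {e : E.Ed} (h : ¬ ∃ κ, c.a κ = e) :
    (c.plus l).T (Sum.inl e) = l.T e := by
  classical
  change (if h : ∃ κ, c.a κ = e then
        l.T e - c.M l h.choose * c.N l h.choose * l.T e +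
          c.M l h.choose * c.N l (nx h.choose) * l.T (c.a (nx h.choose))
      else l.T e) = _
  rw [dif_neg h]

theorem plusL_Sn (g : NewEd E) :
    (c.plus l).S (Sum.inr g) = l.S (c.a (g, 0)) * c.M l (g, 0) := rfl

theorem plusL_Tn (g : NewEd E) :
    (c.plus l).T (Sum.inr g) = c.N l (g, 0) * l.T (c.a (g, 0)) := rfl

variable (hl : IsLeavitt l)

include hl

theorem plusL_NM (κ : NewEd E × ℕ) : c.N l κ * c.M l κ = l.P κ.1.1.2.1 :=
  hl.TP_SP (c.path κ)

theorem plusL_MP (κ : NewEd E × ℕ) : c.M l κ * l.P κ.1.1.2.1 = c.M l κ := hl.SP_P _ _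

theorem plusL_PN (κ : NewEd E × ℕ) : l.P κ.1.1.2.1 * c.N l κ = c.N l κ := hl.P_TP _ _

theorem plusL_PM (κ : NewEd E × ℕ) : l.P (E.rng (c.a κ)) * c.M l κ = c.M l κ :=
  hl.P_SP (c.path κ)

theorem plusL_NP (κ : NewEd E × ℕ) : c.N l κ * l.P (E.rng (c.a κ)) = c.N l κ :=
  hl.TP_P (c.path κ)

theorem plusL_NM' (κ : NewEd E × ℕ) (x : R) :
    c.N l κ * (c.M l κ * x) = l.P κ.1.1.2.1 * x := by
  rw [← mul_assoc, plusL_NM c hl]

theorem plusL_PN' (κ : NewEd E × ℕ) (x : R) :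
    l.P κ.1.1.2.1 * (c.N l κ * x) = c.N l κ * x := by
  rw [← mul_assoc, plusL_PN c hl]

theorem plusL_PM' (κ : NewEd E × ℕ) (x : R) :
    l.P (E.rng (c.a κ)) * (c.M l κ * x) = c.M l κ * x := by
  rw [← mul_assoc, plusL_PM c hl]

theorem plusL_TS0 {κ κ' : NewEd E × ℕ} (h : κ ≠ κ') : l.T (c.a κ) * l.S (c.a κ') = 0 :=
  hl.ts0 _ _ fun h1 => h (c.ainj h1)

theorem plusL_TS0' {κ κ' : NewEd E × ℕ} (h : κ ≠ κ') (x : R) :
    l.T (c.a κ) * (l.S (c.a κ') * x) = 0 :=
  hl.TS0_assoc (fun h1 => h (c.ainj h1)) x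

theorem plusL_TSe {κ : NewEd E × ℕ} {f : E.Ed} (h : ¬ ∃ κ, c.a κ = f) :
    l.T (c.a κ) * l.S f = 0 :=
  hl.ts0 _ _ fun h1 => h ⟨κ, h1⟩

theorem plusL_TeS {κ : NewEd E × ℕ} {f : E.Ed} (h : ¬ ∃ κ, c.a κ = f) :
    l.T f * l.S (c.a κ) = 0 :=
  hl.ts0 _ _ fun h1 => h ⟨κ, h1.symm⟩

theorem plusL_TeS' {κ : NewEd E × ℕ} {f : E.Ed} (h : ¬ ∃ κ, c.a κ = f) (x : R) :
    l.T f * (l.S (c.a κ) * x) = 0 :=
  hl.TS0_assoc (fun h1 => h ⟨κ, h1.symm⟩) x

/-- The product for the same requirement. -/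
theorem plusL_aa (κ : NewEd E × ℕ) : (c.plus l).T (Sum.inl (c.a κ)) *
    (c.plus l).S (Sum.inl (c.a κ)) = l.P (E.rng (c.a κ)) := by
  have h1 : κ ≠ nx κ := (plusL_nx_ne κ).symm
  have h2 : c.N l (nx κ) * (c.M l (nx κ) * c.N l κ) = c.N l κ := by
    rw [plusL_NM' c hl]
    exact plusL_PN c hl κ
  have h3 : c.N l κ * (c.M l κ * c.N l κ) = c.N l κ := by
    rw [plusL_NM' c hl]
    exact plusL_PN c hl κ
  rw [plusL_Sa, plusL_Ta]
  simp only [mul_add, add_mul, mul_sub, sub_mul, mul_assoc, hl.ts, hl.TS_assoc,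
    plusL_TS0 c hl h1, plusL_TS0' c hl h1, plusL_TS0 c hl h1.symm, plusL_TS0' c hl h1.symm,
    mul_zero, add_zero, zero_add, sub_zero, zero_sub, plusL_PM' c hl, plusL_NP c hl, h2, h3]
  abel

/-- The product for different requirements. -/
theorem plusL_ab {κ κ' : NewEd E × ℕ} (h : κ ≠ κ') : (c.plus l).T (Sum.inl (c.a κ)) *
    (c.plus l).S (Sum.inl (c.a κ')) = 0 := by
  have h1 : nx κ ≠ nx κ' := fun h2 => h (plusL_nx_inj h2)
  rw [plusL_Sa, plusL_Ta]
  by_cases h2 : κ = nx κ'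
  · have h3 : nx κ ≠ κ' := plusL_nx_nx h2
    subst h2
    have h4 : c.N l (nx κ') * (c.M l (nx κ') * c.N l κ') = c.N l κ' := by
      rw [plusL_NM' c hl]
      exact plusL_PN c hl κ'
    simp only [mul_add, add_mul, mul_sub, sub_mul, mul_assoc, hl.TS_assoc,
      plusL_TS0 c hl h, plusL_TS0' c hl h, plusL_TS0 c hl h3, plusL_TS0' c hl h3,
      plusL_TS0' c hl h1,
      mul_zero, add_zero, zero_add, sub_zero, zero_sub, plusL_PM' c hl, h4]
    abel
  · by_cases h3 : κ' = nx κ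
    · subst h3
      have h4 : c.N l (nx κ) * (c.M l (nx κ) * c.N l (nx κ)) = c.N l (nx κ) := by
        rw [plusL_NM' c hl]
        exact plusL_PN c hl (nx κ)
      simp only [mul_add, add_mul, mul_sub, sub_mul, mul_assoc, hl.TS_assoc, hl.ts,
        plusL_TS0 c hl h, plusL_TS0' c hl h, plusL_TS0' c hl h2,
        plusL_TS0' c hl h1,
        mul_zero, add_zero, zero_add, sub_zero, zero_sub, plusL_PM' c hl, plusL_NP c hl, h4]
      abel
    · have h4 : nx κ ≠ κ' := fun h5 => h3 h5.symm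
      simp only [mul_add, add_mul, mul_sub, sub_mul, mul_assoc,
        plusL_TS0 c hl h, plusL_TS0' c hl h, plusL_TS0' c hl h2, plusL_TS0 c hl h4,
        plusL_TS0' c hl h4, plusL_TS0' c hl h1,
        mul_zero, add_zero, zero_add, sub_zero, zero_sub]

/-- The products of old edges. -/
theorem plusL_oo {e f : E.Ed} (h : e ≠ f) : (c.plus l).T (Sum.inl e) *
    (c.plus l).S (Sum.inl f) = 0 := by
  by_cases he : ∃ κ, c.a κ = e
  · obtain ⟨κ, rfl⟩ := he
    by_cases hf : ∃ κ', c.a κ' = f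
    · obtain ⟨κ', rfl⟩ := hf
      exact plusL_ab c hl fun h1 => h (congrArg c.a h1)
    · rw [plusL_Se c hf, plusL_Ta]
      simp only [add_mul, sub_mul, mul_assoc, plusL_TSe c hl hf, mul_zero, sub_zero, add_zero]
  · by_cases hf : ∃ κ', c.a κ' = f
    · obtain ⟨κ', rfl⟩ := hf
      rw [plusL_Te c he, plusL_Sa]
      simp only [mul_add, mul_sub, plusL_TeS c hl he, plusL_TeS' c hl he, sub_zero, add_zero]
    · rw [plusL_Te c he, plusL_Se c hf]
      exact hl.ts0 _ _ h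

/-- The products of a new edge with an old one. -/
theorem plusL_no (g : NewEd E) (f : E.Ed) : (c.plus l).T (Sum.inr g) *
    (c.plus l).S (Sum.inl f) = 0 := by
  rw [plusL_Tn]
  by_cases hf : ∃ κ', c.a κ' = f
  · obtain ⟨κ', rfl⟩ := hf
    have h1 := plusL_nx_zero g κ'
    rw [plusL_Sa]
    by_cases h : (g, 0) = κ'
    · subst h
      have h4 : c.N l (g, 0) * (c.M l (g, 0) * c.N l (g, 0)) = c.N l (g, 0) := by
        rw [plusL_NM' c hl]
        exact plusL_PN c hl (g, 0)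
      simp only [mul_add, mul_sub, mul_assoc, hl.ts, hl.TS_assoc, plusL_TS0' c hl h1,
        mul_zero, add_zero, plusL_PM' c hl, plusL_NP c hl, h4, sub_self]
    · simp only [mul_add, mul_sub, mul_assoc, plusL_TS0 c hl h, plusL_TS0' c hl h,
        plusL_TS0' c hl h1, mul_zero, add_zero, sub_zero]
  · rw [plusL_Se c hf, mul_assoc, plusL_TSe c hl hf, mul_zero]

theorem plusL_on (g : NewEd E) (f : E.Ed) : (c.plus l).T (Sum.inl f) *
    (c.plus l).S (Sum.inr g) = 0 := by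
  rw [plusL_Sn]
  by_cases hf : ∃ κ', c.a κ' = f
  · obtain ⟨κ', rfl⟩ := hf
    have h1 := plusL_nx_zero g κ'
    rw [plusL_Ta]
    by_cases h : (g, 0) = κ'
    · subst h
      have h4 : c.N l (g, 0) * c.M l (g, 0) = l.P g.1.2.1 := plusL_NM c hl (g, 0)
      have h5 : c.M l (g, 0) * l.P g.1.2.1 = c.M l (g, 0) := plusL_MP c hl (g, 0)
      simp only [add_mul, sub_mul, mul_assoc, hl.TS_assoc, plusL_TS0' c hl h1.symm,
        mul_zero, add_zero, plusL_PM c hl, h4, h5, sub_self]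
    · have h' : κ' ≠ (g, 0) := fun h2 => h h2.symm
      simp only [add_mul, sub_mul, mul_assoc, plusL_TS0' c hl h',
        plusL_TS0' c hl h1.symm, mul_zero, add_zero, sub_zero]
  · rw [plusL_Te c hf, plusL_TeS' c hl hf]

theorem plusL_nn {g g' : NewEd E} (h : g ≠ g') : (c.plus l).T (Sum.inr g) *
    (c.plus l).S (Sum.inr g') = 0 := by
  have h1 : (g, 0) ≠ (g', 0) := fun h2 => h (congrArg Prod.fst h2)
  rw [plusL_Tn, plusL_Sn, mul_assoc, plusL_TS0' c hl h1, mul_zero]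

theorem plusL_ng (g : NewEd E) : (c.plus l).T (Sum.inr g) *
    (c.plus l).S (Sum.inr g) = l.P g.1.2.1 := by
  rw [plusL_Tn, plusL_Sn, mul_assoc, hl.TS_assoc, plusL_PM c hl]
  exact plusL_NM c hl (g, 0)

end

/-- The family of the amplification is a Leavitt family. -/
theorem p_plusL : S_plusL := by
  intro E c R _ l hl hck
  refine ⟨fun v => hl.idem v, fun v w h => hl.orth v w h, ?_, ?_, ?_, ?_, ?_, ?_, ?_⟩
  · rintro (e | g)
    · change l.P (E.src e) * _ = _
      by_cases he : ∃ κ, c.a κ = e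
      · obtain ⟨κ, rfl⟩ := he
        have h1 : l.P (E.src (c.a κ)) * l.S (c.a (nx κ)) = l.S (c.a (nx κ)) := by
          have h2 : E.src (c.a κ) = E.src (c.a (nx κ)) := (c.asrc κ).trans (c.asrc (nx κ)).symm
          rw [h2, hl.ps]
        rw [plusL_Sa, mul_add, mul_sub, ← mul_assoc (l.P _) (l.S (c.a κ)),
          ← mul_assoc (l.P _) (l.S (c.a (nx κ))), h1, hl.ps]
      · rw [plusL_Se c he, hl.ps]
    · change l.P g.1.1 * _ = _
      have h2 : E.src (c.a (g, 0)) = g.1.1 := c.asrc (g, 0)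
      rw [plusL_Sn, ← mul_assoc, ← h2, hl.ps]
  · rintro (e | g)
    · change _ * l.P (E.rng e) = _
      by_cases he : ∃ κ, c.a κ = e
      · obtain ⟨κ, rfl⟩ := he
        rw [plusL_Sa]
        simp only [add_mul, sub_mul, mul_assoc, hl.sp, plusL_NP c hl]
      · rw [plusL_Se c he, hl.sp]
    · change _ * l.P g.1.2.1 = _
      rw [plusL_Sn, mul_assoc]
      exact congrArg _ (plusL_MP c hl (g, 0))
  · rintro (e | g)
    · change l.P (E.rng e) * _ = _
      by_cases he : ∃ κ, c.a κ = e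
      · obtain ⟨κ, rfl⟩ := he
        rw [plusL_Ta]
        simp only [mul_add, mul_sub, mul_assoc, hl.pt, plusL_PM' c hl]
      · rw [plusL_Te c he, hl.pt]
    · change l.P g.1.2.1 * _ = _
      rw [plusL_Tn, ← mul_assoc]
      exact congrArg (· * _) (plusL_PN c hl (g, 0))
  · rintro (e | g)
    · change _ * l.P (E.src e) = _
      by_cases he : ∃ κ, c.a κ = e
      · obtain ⟨κ, rfl⟩ := he
        have h1 : l.T (c.a (nx κ)) * l.P (E.src (c.a κ)) = l.T (c.a (nx κ)) := by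
          have h2 : E.src (c.a κ) = E.src (c.a (nx κ)) := (c.asrc κ).trans (c.asrc (nx κ)).symm
          rw [h2, hl.tp]
        rw [plusL_Ta]
        simp only [add_mul, sub_mul, mul_assoc, hl.tp, h1]
      · rw [plusL_Te c he, hl.tp]
    · change _ * l.P g.1.1 = _
      have h2 : E.src (c.a (g, 0)) = g.1.1 := c.asrc (g, 0)
      rw [plusL_Tn, mul_assoc, ← h2, hl.tp]
  · rintro (e | g)
    · change _ = l.P (E.rng e)
      by_cases he : ∃ κ, c.a κ = e
      · obtain ⟨κ, rfl⟩ := he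
        exact plusL_aa c hl κ
      · rw [plusL_Se c he, plusL_Te c he, hl.ts]
    · exact plusL_ng c hl g
  · rintro (e | g) (f | g') h
    · exact plusL_oo c hl fun h1 => h (congrArg _ h1)
    · exact plusL_on c hl g' e
    · exact plusL_no c hl g f
    · exact plusL_nn c hl fun h1 => h (congrArg _ h1)
  · intro v s hs h
    exact absurd h (hck v s hs)

end Pool.Agent.Lib.MP_8f60dc_al.IB
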