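import Pool.Agent.Lib.MP_8f60dc_al.IB.Stm

/-!
# Infinitely branching graphs: pieces pmem, ideal, inj
-/

set_option autoImplicit false

namespace Pool.Agent.Lib.MP_8f60dc_al.IB

open Relation

private theorem pmem_valid {E : DGraph} (w : E.V) : Valid w ([] : List E.Ed) [] :=
  ⟨⟨w, rfl⟩, w, rfl⟩

private theorem pmem_wd {E : DGraph} (w : E.V) : wd w ([] : List E.Ed) [] = (lf E).P w :=
  lf_leavitt.idem w

theorem p_pmem (h1 : S_noreg) (h2 : S_trace) : S_pmem := by
  intro E hE H w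
  constructor
  · intro h
    by_contra hw
    obtain ⟨t, -, ht⟩ := h2 E (h1 E hE) w
    have h3 : idl H ≤ LinearMap.ker t := by
      refine Submodule.span_le.2 ?_
      rintro y ⟨v, p, q, hv, hval, rfl⟩
      have hne : v ≠ w := fun e => hw (e ▸ hv)
      change t (wd v p q) = 0
      rw [ht v p q hval, if_neg fun e => hne e.2]
    have h4 : t ((lf E).P w) = 0 := h3 h
    rw [← pmem_wd, ht w [] [] (pmem_valid w), if_pos ⟨rfl, rfl⟩] at h4
    exact one_ne_zero h4
  · intro hw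
    exact Submodule.subset_span ⟨w, [], [], hw, pmem_valid w, (pmem_wd w).symm⟩

theorem p_ideal (h1 : S_reduce) (_h2 : S_idlId) : S_ideal := by
  intro E hE J hJ
  have hH : Hered E {v | (lf E).P v ∈ J} := by
    rintro v w ⟨e, rfl, rfl⟩ hv
    change (lf E).P (E.rng e) ∈ J
    rw [← lf_leavitt.ts e, ← lf_leavitt.ps e]
    exact (hJ _ _ (hJ _ _ hv).2).1
  have hle : idl {v | (lf E).P v ∈ J} ≤ J := by
    refine Submodule.span_le.2 ?_
    rintro y ⟨v, p, q, hv, -, rfl⟩
    change (lf E).SP v p * (lf E).TP v q ∈ J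
    rw [← lf_leavitt.SP_P v p]
    exact (hJ _ _ (hJ _ _ hv).1).2
  refine ⟨hH, le_antisymm ?_ hle⟩
  intro x hx
  by_contra hx'
  obtain ⟨c, d, w, hw, hz⟩ := h1 E hE _ hH x hx'
  apply hw
  have h3 : c * x * d ∈ J := (hJ _ _ (hJ _ _ hx).1).2
  have h4 := J.sub_mem h3 (hle hz)
  rwa [sub_sub_cancel] at h4

theorem p_inj (h1 : S_reduce) : S_inj := by
  intro E hE R _ _ φ hφ
  refine (injective_iff_map_eq_zero φ).2 fun x hx => ?_
  by_contra hx0
  have he : idl (∅ : Set E.V) = ⊥ := by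
    refine Submodule.span_eq_bot.2 ?_
    rintro y ⟨v, p, q, hv, -⟩
    exact absurd hv (Set.notMem_empty v)
  obtain ⟨c, d, w, -, hz⟩ := h1 E hE ∅ (fun _ _ _ h => absurd h (Set.notMem_empty _)) x (by
    rw [he]
    exact hx0)
  rw [he, Submodule.mem_bot, sub_eq_zero] at hz
  apply hφ w
  rw [← hz, map_mul, map_mul, hx, mul_zero, zero_mul]

end Pool.Agent.Lib.MP_8f60dc_al.IB
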