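import Pool.Agent.Lib.MP_8f60dc_al.IB.Stm

/-!
# The reduction lemma
-/

set_option autoImplicit false

namespace Pool.Agent.Lib.MP_8f60dc_al.IB

open Relation

variable {E : DGraph}

theorem reduce_rtg {H : Set E.V} (hH : Hered E H) {a b : E.V} (h : ReflTransGen E.Step a b)
    (ha : a ∈ H) : b ∈ H := by
  induction h with
  | refl => exact ha
  | tail _ h2 ih => exact hH _ _ h2 ih

theorem reduce_path : ∀ {p : List E.Ed} {a b : E.V}, IsPath E p a b → ReflTransGen E.Step a b
  | [], a, b, h => by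
    change a = b at h
    subst h
    exact .refl
  | e :: p, a, b, h => by
    obtain ⟨rfl, h⟩ := h
    exact .head ⟨e, rfl, rfl⟩ (reduce_path h)

theorem reduce_split : ∀ {p q : List E.Ed} {a b : E.V}, IsPath E (p ++ q) a b →
    ∃ c, IsPath E p a c ∧ IsPath E q c b
  | [], q, a, b, h => ⟨a, rfl, h⟩
  | e :: p, q, a, b, h => by
    obtain ⟨h1, h2⟩ := h
    obtain ⟨c, h3, h4⟩ := reduce_split h2
    exact ⟨c, ⟨h1, h3⟩, h4⟩

section Ring

variable {R : Type*} [NonUnitalRing R] {l : Fam E R} (hl : IsLeavitt l)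

include hl

theorem reduce_R : ∀ {q p : List E.Ed} {v w a b : E.V}, IsPath E p a v → IsPath E q b w →
    q.length ≤ p.length → l.TP v p * l.SP w q = 0 ∨
      (p = q ∧ v = w ∧ l.TP v p * l.SP w q = l.P w) ∨
      ∃ g r, p = q ++ g :: r ∧ E.src g = w ∧ l.TP v p * l.SP w q = l.TP v (g :: r)
  | [], [], v, w, a, b, _, _, _ => by
    rw [Fam.TP_nil, Fam.SP_nil]
    by_cases h : v = w
    · subst h
      exact Or.inr (Or.inl ⟨rfl, rfl, hl.idem v⟩)
    · exact Or.inl (hl.orth _ _ h)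
  | [], g :: r, v, w, a, b, _, _, _ => by
    rw [Fam.SP_nil]
    by_cases h : E.src g = w
    · refine Or.inr (Or.inr ⟨g, r, rfl, h, ?_⟩)
      rw [Fam.TP_cons, mul_assoc, ← h, hl.tp]
    · left
      rw [Fam.TP_cons, mul_assoc, hl.TP0 h, mul_zero]
  | f :: q, [], v, w, a, b, _, _, h => by simp at h
  | f :: q, e :: p, v, w, a, b, hp, hq, h => by
    rw [Fam.TP_cons, Fam.SP_cons, mul_assoc]
    by_cases hef : e = f
    · subst hef
      rw [hl.TS_assoc, ← mul_assoc, hl.TP_P hp.2]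
      rcases reduce_R hp.2 hq.2 (by simpa using h) with h1 | ⟨h1, h2, h3⟩ | ⟨g, r, h1, h2, h3⟩
      · exact Or.inl h1
      · exact Or.inr (Or.inl ⟨by rw [h1], h2, h3⟩)
      · exact Or.inr (Or.inr ⟨g, r, by rw [h1, List.cons_append], h2, h3⟩)
    · left
      rw [hl.TS0_assoc hef, mul_zero]

theorem reduce_L : ∀ {q p : List E.Ed} {v w a b : E.V}, IsPath E p a v → IsPath E q b w →
    q.length ≤ p.length → l.TP w q * l.SP v p = 0 ∨
      (p = q ∧ v = w ∧ l.TP w q * l.SP v p = l.P w) ∨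
      ∃ g r, p = q ++ g :: r ∧ E.src g = w ∧ l.TP w q * l.SP v p = l.SP v (g :: r)
  | [], [], v, w, a, b, _, _, _ => by
    rw [Fam.TP_nil, Fam.SP_nil]
    by_cases h : v = w
    · subst h
      exact Or.inr (Or.inl ⟨rfl, rfl, hl.idem v⟩)
    · exact Or.inl (hl.orth _ _ (Ne.symm h))
  | [], g :: r, v, w, a, b, _, _, _ => by
    rw [Fam.TP_nil]
    by_cases h : E.src g = w
    · refine Or.inr (Or.inr ⟨g, r, rfl, h, ?_⟩)
      rw [Fam.SP_cons, ← mul_assoc, ← h, hl.ps]
    · left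
      rw [Fam.SP_cons, ← mul_assoc, hl.PS0 h, zero_mul]
  | f :: q, [], v, w, a, b, _, _, h => by simp at h
  | f :: q, e :: p, v, w, a, b, hp, hq, h => by
    rw [Fam.TP_cons, Fam.SP_cons, mul_assoc]
    by_cases hef : f = e
    · subst hef
      rw [hl.TS_assoc, hl.P_SP hp.2]
      rcases reduce_L hp.2 hq.2 (by simpa using h) with h1 | ⟨h1, h2, h3⟩ | ⟨g, r, h1, h2, h3⟩
      · exact Or.inl h1
      · exact Or.inr (Or.inl ⟨by rw [h1], h2, h3⟩)
      · exact Or.inr (Or.inr ⟨g, r, by rw [h1, List.cons_append], h2, h3⟩)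
    · left
      rw [hl.TS0_assoc hef, mul_zero]

end Ring

/-- Every element is a combination of valid words outside `H` modulo `idl H`. -/
theorem reduce_sum (H : Set E.V) (x : LPA E) : ∃ f : (E.V × List E.Ed × List E.Ed) →₀ ℂ,
    (∀ t ∈ f.support, Valid t.1 t.2.1 t.2.2 ∧ t.1 ∉ H) ∧
      x - f.sum (fun t k => k • wd t.1 t.2.1 t.2.2) ∈ idl H := by
  classical
  suffices h : ∃ f : (E.V × List E.Ed × List E.Ed) →₀ ℂ,
      (∀ t ∈ f.support, Valid t.1 t.2.1 t.2.2 ∧ t.1 ∉ H) ∧
        x - Finsupp.linearCombination ℂ (fun t : E.V × List E.Ed × List E.Ed =>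
          wd t.1 t.2.1 t.2.2) f ∈ idl H from h
  have hx := lpa_words x
  induction hx using Submodule.span_induction with
  | mem x h =>
    obtain ⟨v, p, q, rfl⟩ := h
    by_cases hv : Valid v p q
    · by_cases hH : v ∈ H
      · refine ⟨0, by simp, ?_⟩
        rw [map_zero, sub_zero]
        exact Submodule.subset_span ⟨v, p, q, hH, hv, rfl⟩
      · refine ⟨Finsupp.single (v, p, q) 1, ?_, ?_⟩
        · intro t ht
          have := Finsupp.support_single_subset ht
          rw [Finset.mem_singleton] at this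
          subst this
          exact ⟨hv, hH⟩
        · rw [Finsupp.linearCombination_single, one_smul]
          have : (lf E).SP v p * (lf E).TP v q - wd v p q = 0 := sub_self _
          rw [this]
          exact Submodule.zero_mem _
    · refine ⟨0, by simp, ?_⟩
      rw [map_zero, sub_zero]
      have : (lf E).SP v p * (lf E).TP v q = 0 := by
        by_cases h1 : ∃ a, IsPath E p a v
        · have h2 : ¬ ∃ b, IsPath E q b v := fun h2 => hv ⟨h1, h2⟩
          rw [lf_leavitt.TP_zero (not_exists.1 h2), mul_zero]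
        · rw [lf_leavitt.SP_zero (not_exists.1 h1), zero_mul]
      rw [this]
      exact Submodule.zero_mem _
  | zero => exact ⟨0, by simp, by simp⟩
  | add x y _ _ h1 h2 =>
    obtain ⟨f, hf, hf'⟩ := h1
    obtain ⟨g, hg, hg'⟩ := h2
    refine ⟨f + g, ?_, ?_⟩
    · intro t ht
      rcases Finset.mem_union.1 (Finsupp.support_add ht) with h | h
      · exact hf t h
      · exact hg t h
    · rw [map_add]
      have := Submodule.add_mem _ hf' hg'
      rwa [sub_add_sub_comm] at this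
  | smul c x _ h1 =>
    obtain ⟨f, hf, hf'⟩ := h1
    refine ⟨c • f, fun t ht => hf t (Finsupp.support_smul ht), ?_⟩
    rw [map_smul]
    have := Submodule.smul_mem _ c hf'
    rwa [smul_sub] at this

theorem p_reduce (h0 : S_idlId) : S_reduce := by
  intro E hE H hH x hx
  classical
  obtain ⟨φ, hφ, hz⟩ := reduce_sum H x
  set z := x - φ.sum (fun t k => k • wd t.1 t.2.1 t.2.2) with hzdef
  have hne : φ.support.Nonempty := by
    rw [Finset.nonempty_iff_ne_empty]
    intro h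
    rw [Finsupp.support_eq_empty] at h
    rw [h, Finsupp.sum_zero_index, sub_zero] at hzdef
    exact hx (hzdef ▸ hz)
  obtain ⟨t₁, ht₁, hmin⟩ := Finset.exists_min_image φ.support
    (fun t => toLex (t.2.2.length, t.2.1.length)) hne
  obtain ⟨w, p₁, q₁⟩ := t₁
  obtain ⟨⟨⟨a₁, hp₁⟩, ⟨b₁, hq₁⟩⟩, hwH⟩ := hφ _ ht₁
  simp only at hp₁ hq₁ hwH
  set l := lf E with hl
  have L : IsLeavitt l := lf_leavitt
  -- the products
  have key : ∀ t ∈ φ.support, t ≠ (w, p₁, q₁) →
      l.TP w p₁ * wd t.1 t.2.1 t.2.2 * l.SP w q₁ = 0 ∨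
      ((∃ u, u ∉ H ∧ TransGen E.Step w u) ∧ ∃ g, ∀ f, f ≠ g →
        l.T f * (l.TP w p₁ * wd t.1 t.2.1 t.2.2 * l.SP w q₁) * l.S f = 0) := by
    rintro ⟨v, p, q⟩ ht htne
    obtain ⟨⟨⟨a, hp⟩, ⟨b, hq⟩⟩, hvH⟩ := hφ _ ht
    simp only at hp hq hvH ⊢
    have hle := hmin _ ht
    simp only [Prod.Lex.toLex_le_toLex] at hle
    have e1 : l.TP w p₁ * wd v p q * l.SP w q₁ =
        (l.TP w p₁ * l.SP v p) * (l.TP v q * l.SP w q₁) := by
      change l.TP w p₁ * (l.SP v p * l.TP v q) * l.SP w q₁ = _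
      simp only [mul_assoc]
    have hq1 : q₁.length ≤ q.length := by
      rcases hle with h | h
      · exact h.le
      · exact h.1.le
    rcases reduce_R L hq hq₁ hq1 with h1 | ⟨h1, h2, h3⟩ | ⟨g, r, h1, h2, h3⟩
    · left
      rw [e1, h1, mul_zero]
    · subst h1
      subst h2
      have hp1 : p₁.length ≤ p.length := by
        rcases hle with h | h
        · exact absurd h (lt_irrefl _)
        · exact h.2
      rcases reduce_L L hp hp₁ hp1 with h4 | ⟨h4, -, -⟩ | ⟨g, r, h4, h5, h6⟩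
      · left
        rw [e1, h4, zero_mul]
      · subst h4
        exact absurd rfl htne
      · right
        have hpath : IsPath E (g :: r) v v := by
          rw [h4] at hp
          obtain ⟨c, -, hc⟩ := reduce_split hp
          exact ⟨h5, hc.2⟩
        refine ⟨⟨v, hvH, TransGen.head' ⟨g, h5, rfl⟩ (reduce_path hpath.2)⟩, g, ?_⟩
        intro f hf
        rw [e1, h3, h6, Fam.SP_cons, mul_assoc (l.S g), ← mul_assoc (l.T f), L.ts0 f g hf,
          zero_mul, zero_mul]
    · right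
      have hpath : IsPath E (g :: r) w v := by
        rw [h1] at hq
        obtain ⟨c, -, hc⟩ := reduce_split hq
        exact ⟨h2, hc.2⟩
      refine ⟨⟨v, hvH, TransGen.head' ⟨g, h2, rfl⟩ (reduce_path hpath.2)⟩, g, ?_⟩
      intro f hf
      rw [e1, h3, Fam.TP_cons]
      have : l.T g * l.S f = 0 := L.ts0 g f hf.symm
      simp only [mul_assoc, this, mul_zero]
  have key1 : l.TP w p₁ * wd w p₁ q₁ * l.SP w q₁ = l.P w := by
    change l.TP w p₁ * (l.SP w p₁ * l.TP w q₁) * l.SP w q₁ = _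
    calc l.TP w p₁ * (l.SP w p₁ * l.TP w q₁) * l.SP w q₁
        = (l.TP w p₁ * l.SP w p₁) * (l.TP w q₁ * l.SP w q₁) := by simp only [mul_assoc]
      _ = l.P w := by rw [L.TP_SP hp₁, L.TP_SP hq₁, L.idem]
  have hx' : x = φ.sum (fun t k => k • wd t.1 t.2.1 t.2.2) + z := by
    rw [hzdef]
    abel
  -- the expansion
  have expand : ∀ c d : LPA E, c * x * d = φ (w, p₁, q₁) • (c * wd w p₁ q₁ * d) +
      ∑ t ∈ φ.support.erase (w, p₁, q₁), φ t • (c * wd t.1 t.2.1 t.2.2 * d) + c * z * d := by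
    intro c d
    conv_lhs => rw [hx']
    rw [mul_add, add_mul, Finsupp.sum, Finset.mul_sum, Finset.sum_mul,
      ← Finset.add_sum_erase _ _ ht₁]
    simp only [mul_smul_comm, smul_mul_assoc]
  have hk : φ (w, p₁, q₁) ≠ 0 := Finsupp.mem_support_iff.1 ht₁
  have hid := h0 E H hH
  have hcz : ∀ c d : LPA E, c * z * d ∈ idl H := fun c d => (hid d _ (hid c z hz).1).2
  by_cases hall : ∀ t ∈ φ.support.erase (w, p₁, q₁),
      l.TP w p₁ * wd t.1 t.2.1 t.2.2 * l.SP w q₁ = 0
  · refine ⟨(φ (w, p₁, q₁))⁻¹ • l.TP w p₁, l.SP w q₁, w, hwH, ?_⟩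
    rw [smul_mul_assoc, smul_mul_assoc, expand, key1, Finset.sum_eq_zero, add_zero, smul_add,
      smul_smul, inv_mul_cancel₀ hk, one_smul, add_sub_cancel_left]
    · exact Submodule.smul_mem _ _ (hcz _ _)
    · intro t ht
      rw [hall t ht, smul_zero]
  · push Not at hall
    obtain ⟨t, ht, htne⟩ := hall
    have hu : ∃ u, u ∉ H ∧ TransGen E.Step w u := by
      rcases key t (Finset.mem_of_mem_erase ht) (Finset.ne_of_mem_erase ht) with h | h
      · exact absurd h htne
      · exact h.1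
    obtain ⟨u, huH, hwu⟩ := hu
    have hg : ∀ t : (E.V × List E.Ed × List E.Ed), ∃ g : Option E.Ed,
        t ∈ φ.support.erase (w, p₁, q₁) → ∀ f, some f ≠ g →
        l.T f * (l.TP w p₁ * wd t.1 t.2.1 t.2.2 * l.SP w q₁) * l.S f = 0 := by
      intro t
      by_cases ht : t ∈ φ.support.erase (w, p₁, q₁)
      · rcases key t (Finset.mem_of_mem_erase ht) (Finset.ne_of_mem_erase ht) with h | ⟨-, g, h⟩
        · exact ⟨none, fun _ f _ => by rw [h, mul_zero, zero_mul]⟩
        · exact ⟨some g, fun _ f hf => h f fun h' => hf (by rw [h'])⟩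
      · exact ⟨none, fun h => absurd h ht⟩
    choose g hg using hg
    obtain ⟨f, hf1, hf2⟩ := (hE w u hwu).exists_notMem_finset
      ((φ.support.erase (w, p₁, q₁)).biUnion fun t => (g t).toFinset)
    obtain ⟨hfs, hfr⟩ := hf1
    have hfH : E.rng f ∉ H := fun h => huH (reduce_rtg hH hfr h)
    refine ⟨(φ (w, p₁, q₁))⁻¹ • (l.T f * l.TP w p₁), l.SP w q₁ * l.S f, E.rng f, hfH, ?_⟩
    have e2 : ∀ y : LPA E, l.T f * l.TP w p₁ * y * (l.SP w q₁ * l.S f) =
        l.T f * (l.TP w p₁ * y * l.SP w q₁) * l.S f := by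
      intro y
      simp only [mul_assoc]
    rw [smul_mul_assoc, smul_mul_assoc, expand, e2, key1, Finset.sum_eq_zero, add_zero, smul_add,
      smul_smul, inv_mul_cancel₀ hk, one_smul, ← hfs, L.tp, L.ts, add_sub_cancel_left]
    · exact Submodule.smul_mem _ _ (hcz _ _)
    · intro t ht
      rw [e2, hg t ht f, smul_zero]
      intro h
      apply hf2
      rw [Finset.mem_biUnion]
      exact ⟨t, ht, by rw [← h]; simp⟩

end Pool.Agent.Lib.MP_8f60dc_al.IB
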