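import Pool.Agent.Lib.MP_8f60dc_al.IB.Stm

/-!
# Infinitely branching graphs: corresponding vertices
-/

set_option autoImplicit false

namespace Pool.Agent.Lib.MP_8f60dc_al.IB

open Relation

variable {E F : DGraph}

theorem rel_mono {H K : Set E.V} (h : H ⊆ K) : idl H ≤ idl K := by
  apply Submodule.span_mono
  rintro y ⟨v, p, q, hv, hval, hy⟩
  exact ⟨v, p, q, h hv, hval, hy⟩

theorem rel_dn (v : E.V) : Hered E (dn v) := fun _ _ hab ha => ReflTransGen.tail ha hab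

theorem rel_bl (v : E.V) : Hered E (bl v) := fun _ _ hab ha =>
  ⟨ReflTransGen.tail ha.1 hab, fun hb => ha.2 (ReflTransGen.head hab hb)⟩

theorem rel_bl_dn (v : E.V) : bl v ⊆ dn v := fun _ ha => ha.1

theorem rel_self (v : E.V) : v ∈ dn v := ReflTransGen.refl

theorem rel_hered {H : Set E.V} (h : Hered E H) {u v : E.V} (hu : u ∈ H)
    (huv : ReflTransGen E.Step u v) : v ∈ H := by
  induction huv with
  | refl => exact hu
  | tail _ hab ih => exact h _ _ hab ih

/-- `idl (dn v)` is the smallest ideal containing `P v`. -/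
theorem rel_small (h3 : S_ideal) (hE : E.InfBranch) {J : Submodule ℂ (LPA E)} (hJ : IsId J)
    {v : E.V} (hv : (lf E).P v ∈ J) : idl (dn v) ≤ J := by
  obtain ⟨hH, he⟩ := h3 E hE J hJ
  rw [he]
  apply rel_mono
  intro u hu
  exact rel_hered hH hv hu

/-- An ideal inside `idl (dn v)` which does not contain `P v` is inside `idl (bl v)`. -/
theorem rel_below (h2 : S_pmem) (h3 : S_ideal) (hE : E.InfBranch) {K : Submodule ℂ (LPA E)}
    (hK : IsId K) {v : E.V} (hle : K ≤ idl (dn v)) (hv : (lf E).P v ∉ K) : K ≤ idl (bl v) := by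
  obtain ⟨hH, he⟩ := h3 E hE K hK
  have hs : {u | (lf E).P u ∈ K} ⊆ bl v := by
    intro u hu
    refine ⟨(h2 E hE (dn v) u).1 (hle hu), fun huv => hv ?_⟩
    exact rel_hered hH hu huv
  intro x hx
  rw [he] at hx
  exact rel_mono hs hx

/-- Preimages of subspaces. -/
def rel_cm (φ : LPA E →ₙₐ[ℂ] LPA F) (J : Submodule ℂ (LPA F)) : Submodule ℂ (LPA E) where
  carrier := {x | φ x ∈ J}
  zero_mem' := by
    change φ 0 ∈ J
    rw [map_zero]
    exact J.zero_mem
  add_mem' := by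
    intro a b ha hb
    change φ (a + b) ∈ J
    rw [map_add]
    exact J.add_mem ha hb
  smul_mem' := by
    intro c a ha
    change φ (c • a) ∈ J
    rw [map_smul]
    exact J.smul_mem c ha

theorem rel_cm_id (φ : LPA E →ₙₐ[ℂ] LPA F) {J : Submodule ℂ (LPA F)} (hJ : IsId J) :
    IsId (rel_cm φ J) := by
  intro x y hy
  have hy' : φ y ∈ J := hy
  refine ⟨?_, ?_⟩
  · change φ (x * y) ∈ J
    rw [map_mul]
    exact (hJ (φ x) (φ y) hy').1
  · change φ (y * x) ∈ J
    rw [map_mul]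
    exact (hJ (φ x) (φ y) hy').2

theorem rel_fwd (h1 : S_idlId) (h3 : S_ideal) (hE : E.InfBranch) (I : AIso E F) {v : E.V}
    {w : F.V} (hr : I.f ((lf E).P v) ∈ idl (dn w)) {x : LPA E} (hx : x ∈ idl (dn v)) :
    I.f x ∈ idl (dn w) :=
  rel_small h3 hE (rel_cm_id I.f (h1 F _ (rel_dn w))) hr hx

theorem rel_bwd (h1 : S_idlId) (h3 : S_ideal) (hF : F.InfBranch) (I : AIso E F) {v : E.V}
    {w : F.V} (hr : I.g ((lf F).P w) ∈ idl (dn v)) {y : LPA F} (hy : y ∈ idl (dn w)) :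
    I.g y ∈ idl (dn v) :=
  rel_small h3 hF (rel_cm_id I.g (h1 E _ (rel_dn v))) hr hy

theorem rel_one (h1 : S_idlId) (h2 : S_pmem) (h3 : S_ideal) (hE : E.InfBranch)
    (hF : F.InfBranch) (I : AIso E F) (v : E.V) : ∃ w, I.Rel v w := by
  by_contra hcon
  have hK : IsId (rel_cm I.g (idl (dn v))) := rel_cm_id I.g (h1 E _ (rel_dn v))
  obtain ⟨_, he⟩ := h3 F hF _ hK
  have hsub : rel_cm I.g (idl (dn v)) ≤ rel_cm I.g (idl (bl v)) := by
    intro y hy
    rw [he] at hy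
    refine Submodule.span_le.2 ?_ hy
    rintro z ⟨w, p, q, hw, hval, rfl⟩
    have hw' : I.g ((lf F).P w) ∈ idl (dn v) := hw
    have hnf : I.f ((lf E).P v) ∉ idl (dn w) := fun hf => hcon ⟨w, hf, hw'⟩
    have hC : IsId (rel_cm I.f (idl (dn w))) := rel_cm_id I.f (h1 F _ (rel_dn w))
    have hle : rel_cm I.f (idl (dn w)) ≤ idl (dn v) := by
      intro x hx
      have hx' : I.f x ∈ idl (dn w) := hx
      have := rel_bwd h1 h3 hF I hw' hx'
      rwa [I.gf] at this
    have hbl := rel_below h2 h3 hE hC hle hnf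
    have hz : wd w p q ∈ idl (dn w) := Submodule.subset_span ⟨w, p, q, rel_self w, hval, rfl⟩
    change I.g (wd w p q) ∈ idl (bl v)
    apply hbl
    change I.f (I.g (wd w p q)) ∈ idl (dn w)
    rw [I.fg]
    exact hz
  have hPv : (lf E).P v ∈ idl (dn v) := (h2 E hE _ v).2 (rel_self v)
  have hfv : I.f ((lf E).P v) ∈ rel_cm I.g (idl (dn v)) := by
    change I.g (I.f ((lf E).P v)) ∈ idl (dn v)
    rw [I.gf]
    exact hPv
  have hfin : I.g (I.f ((lf E).P v)) ∈ idl (bl v) := hsub hfv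
  rw [I.gf] at hfin
  exact ((h2 E hE _ v).1 hfin).2 ReflTransGen.refl

theorem rel_two (h1 : S_idlId) (h2 : S_pmem) (h3 : S_ideal) (hE : E.InfBranch)
    (hF : F.InfBranch) (I : AIso E F) {v : E.V} {w : F.V} {v' : E.V} {w' : F.V}
    (hr : I.Rel v w) (hr' : I.Rel v' w') : v' ∈ dn v ↔ w' ∈ dn w := by
  constructor
  · intro h
    have hP : (lf E).P v' ∈ idl (dn v) := (h2 E hE _ v').2 h
    have h4 : I.g ((lf F).P w') ∈ idl (dn v) :=
      rel_small h3 hE (h1 E _ (rel_dn v)) hP hr'.2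
    have h5 := rel_fwd h1 h3 hE I hr.1 h4
    rw [I.fg] at h5
    exact (h2 F hF _ w').1 h5
  · intro h
    have hP : (lf F).P w' ∈ idl (dn w) := (h2 F hF _ w').2 h
    have h4 : I.f ((lf E).P v') ∈ idl (dn w) :=
      rel_small h3 hF (h1 F _ (rel_dn w)) hP hr'.1
    have h5 := rel_bwd h1 h3 hF I hr.2 h4
    rw [I.gf] at h5
    exact (h2 E hE _ v').1 h5

theorem rel_three (h1 : S_idlId) (h2 : S_pmem) (h3 : S_ideal) (hE : E.InfBranch)
    (hF : F.InfBranch) (I : AIso E F) {v : E.V} {w : F.V} (hr : I.Rel v w) {x : LPA E}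
    (hx : x ∈ idl (bl v)) : I.f x ∈ idl (bl w) := by
  have hK : IsId (rel_cm I.g (idl (bl v))) := rel_cm_id I.g (h1 E _ (rel_bl v))
  have hle : rel_cm I.g (idl (bl v)) ≤ idl (dn w) := by
    intro y hy
    have hy' : I.g y ∈ idl (bl v) := hy
    have := rel_fwd h1 h3 hE I hr.1 (rel_mono (rel_bl_dn v) hy')
    rwa [I.fg] at this
  have hn : (lf F).P w ∉ rel_cm I.g (idl (bl v)) := by
    intro hw
    have h4 : I.g (I.f ((lf E).P v)) ∈ idl (bl v) := rel_small h3 hF hK hw hr.1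
    rw [I.gf] at h4
    exact ((h2 E hE _ v).1 h4).2 ReflTransGen.refl
  apply rel_below h2 h3 hF hK hle hn
  change I.g (I.f x) ∈ idl (bl v)
  rw [I.gf]
  exact hx

theorem p_rel (h1 : S_idlId) (h2 : S_pmem) (h3 : S_ideal) : S_rel := by
  intro E F hE hF I
  refine ⟨rel_one h1 h2 h3 hE hF I, fun v w v' w' hr hr' => rel_two h1 h2 h3 hE hF I hr hr', ?_⟩
  intro v w hr x
  exact ⟨fun hx => rel_fwd h1 h3 hE I hr.1 hx, fun hx => rel_three h1 h2 h3 hE hF I hr hx⟩

end Pool.Agent.Lib.MP_8f60dc_al.IB
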