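import Pool.Agent.Lib.MP_8f60dc_al.IB.Stm

/-!
# Infinitely branching graphs: the trace of a vertex
-/

set_option autoImplicit false

namespace Pool.Agent.Lib.MP_8f60dc_al.IB

noncomputable section

open Classical

variable {E : DGraph}

/-- triples -/
abbrev trace_X (E : DGraph) : Type := E.V × List E.Ed × List E.Ed

/-- the start of a path to `w` -/
def trace_st (w : E.V) : List E.Ed → E.V
  | [] => w
  | f :: _ => E.src f

/-- the vertices -/
def trace_P (v : E.V) : Module.End ℂ (trace_X E → ℂ) where
  toFun φ x := if trace_st x.1 x.2.1 = v then φ x else 0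
  map_add' φ ψ := by
    funext x
    simp only [Pi.add_apply]
    split_ifs
    · rfl
    · simp
  map_smul' c φ := by
    funext x
    simp only [Pi.smul_apply, RingHom.id_apply]
    split_ifs
    · rfl
    · simp

/-- the edges -/
def trace_S (e : E.Ed) : Module.End ℂ (trace_X E → ℂ) where
  toFun φ x := match x.2.1 with
    | [] => 0
    | f :: p => if f = e ∧ trace_st x.1 p = E.rng e then φ (x.1, p, x.2.2) else 0
  map_add' φ ψ := by
    funext ⟨w, p, b⟩
    cases p with
    | nil => simp
    | cons f p =>
      simp only [Pi.add_apply]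
      split_ifs
      · rfl
      · simp
  map_smul' c φ := by
    funext ⟨w, p, b⟩
    cases p with
    | nil => simp
    | cons f p =>
      simp only [Pi.smul_apply, RingHom.id_apply]
      split_ifs
      · rfl
      · simp

/-- the ghost edges -/
def trace_T (e : E.Ed) : Module.End ℂ (trace_X E → ℂ) where
  toFun φ x := (if trace_st x.1 x.2.1 = E.rng e then φ (x.1, e :: x.2.1, x.2.2) else 0) +
    (if x.2.1 = [] ∧ x.1 = E.rng e ∧ x.2.2.head? = some e then φ (E.src e, [], x.2.2.tail) else 0)
  map_add' φ ψ := by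
    funext x
    simp only [Pi.add_apply]
    split_ifs <;> ring
  map_smul' c φ := by
    funext x
    simp only [Pi.smul_apply, RingHom.id_apply, smul_eq_mul]
    split_ifs <;> ring

theorem trace_P_apply (v : E.V) (φ : trace_X E → ℂ) (w : E.V) (p b : List E.Ed) :
    trace_P v φ (w, p, b) = if trace_st w p = v then φ (w, p, b) else 0 := rfl

theorem trace_S_nil (e : E.Ed) (φ : trace_X E → ℂ) (w : E.V) (b : List E.Ed) :
    trace_S e φ (w, [], b) = 0 := rfl

theorem trace_S_cons (e f : E.Ed) (φ : trace_X E → ℂ) (w : E.V) (p b : List E.Ed) :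
    trace_S e φ (w, f :: p, b) =
      if f = e ∧ trace_st w p = E.rng e then φ (w, p, b) else 0 := rfl

theorem trace_T_apply (e : E.Ed) (φ : trace_X E → ℂ) (w : E.V) (p b : List E.Ed) :
    trace_T e φ (w, p, b) = (if trace_st w p = E.rng e then φ (w, e :: p, b) else 0) +
    (if p = [] ∧ w = E.rng e ∧ b.head? = some e then φ (E.src e, [], b.tail) else 0) := rfl

/-- the family -/
def trace_l (E : DGraph) : Fam E (Module.End ℂ (trace_X E → ℂ)) where
  P := trace_P
  S := trace_S
  T := trace_T

theorem trace_lv (hE : ∀ (v : E.V) (s : Finset E.Ed), s.Nonempty →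
    ¬ ∀ e, e ∈ s ↔ E.src e = v) : IsLeavitt (trace_l E) where
  idem v := by
    refine LinearMap.ext fun φ => funext fun ⟨w, p, b⟩ => ?_
    change trace_P v (trace_P v φ) _ = trace_P v φ _
    simp only [trace_P_apply]
    split_ifs <;> rfl
  orth v v' h := by
    refine LinearMap.ext fun φ => funext fun ⟨w, p, b⟩ => ?_
    change trace_P v (trace_P v' φ) _ = 0
    simp only [trace_P_apply]
    split_ifs with h1 h2
    · exact absurd (h1.symm.trans h2) h
    · rfl
    · rfl
  ps e := by
    refine LinearMap.ext fun φ => funext fun ⟨w, p, b⟩ => ?_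
    change trace_P (E.src e) (trace_S e φ) _ = trace_S e φ _
    rw [trace_P_apply]
    cases p with
    | nil => simp [trace_S_nil]
    | cons f p =>
      rw [trace_S_cons]
      by_cases h : f = e
      · subst h
        rw [if_pos (show trace_st w (f :: p) = E.src f from rfl)]
      · rw [if_neg (fun h' : f = e ∧ _ => h h'.1), ite_self]
  sp e := by
    refine LinearMap.ext fun φ => funext fun ⟨w, p, b⟩ => ?_
    change trace_S e (trace_P (E.rng e) φ) _ = trace_S e φ _
    cases p with
    | nil => rfl
    | cons f p =>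
      rw [trace_S_cons, trace_S_cons, trace_P_apply]
      split_ifs with h1 h2
      · rfl
      · exact absurd h1.2 h2
      · rfl
  pt e := by
    refine LinearMap.ext fun φ => funext fun ⟨w, p, b⟩ => ?_
    change trace_P (E.rng e) (trace_T e φ) _ = trace_T e φ _
    rw [trace_P_apply]
    split_ifs with h1
    · rfl
    · rw [trace_T_apply, if_neg h1, if_neg, add_zero]
      rintro ⟨rfl, h2, -⟩
      exact h1 h2
  tp e := by
    refine LinearMap.ext fun φ => funext fun ⟨w, p, b⟩ => ?_
    change trace_T e (trace_P (E.src e) φ) _ = trace_T e φ _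
    simp only [trace_T_apply, trace_P_apply]
    rw [if_pos (show trace_st w (e :: p) = E.src e from rfl),
      if_pos (show trace_st (E.src e) [] = E.src e from rfl)]
  ts e := by
    refine LinearMap.ext fun φ => funext fun ⟨w, p, b⟩ => ?_
    change trace_T e (trace_S e φ) _ = trace_P (E.rng e) φ _
    rw [trace_T_apply, trace_P_apply, trace_S_nil, trace_S_cons, ite_self, add_zero]
    split_ifs with h1 h2
    · rfl
    · exact absurd ⟨rfl, h1⟩ h2
    · rfl
  ts0 e f h := by
    refine LinearMap.ext fun φ => funext fun ⟨w, p, b⟩ => ?_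
    change trace_T e (trace_S f φ) _ = 0
    rw [trace_T_apply, trace_S_nil, trace_S_cons, ite_self, add_zero,
      if_neg (fun h' : e = f ∧ _ => h h'.1), ite_self]
  ck v s hs h := absurd h (hE v s hs)

/-- indicator functions -/
def trace_ind (w : E.V) (p b : List E.Ed) : trace_X E → ℂ := Pi.single (w, p, b) 1

/-- the sum of the vertices -/
def trace_one (E : DGraph) : trace_X E → ℂ := fun x => if x.2.1 = [] ∧ x.2.2 = [] then 1 else 0

theorem trace_ind_apply (w w' : E.V) (p p' b b' : List E.Ed) :
    trace_ind w p b (w', p', b') = if w' = w ∧ p' = p ∧ b' = b then 1 else 0 := by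
  unfold trace_ind
  rw [Pi.single_apply]
  simp only [Prod.mk.injEq]

theorem trace_T_ind (e : E.Ed) (c : List E.Ed) :
    trace_T e (trace_ind (E.src e) [] c) = trace_ind (E.rng e) [] (e :: c) := by
  funext ⟨w, p, b⟩
  rw [trace_T_apply, trace_ind_apply, trace_ind_apply, trace_ind_apply]
  rw [if_neg (by simp : ¬ (w = E.src e ∧ e :: p = [] ∧ b = c)), ite_self, zero_add]
  cases b with
  | nil => simp
  | cons f b =>
    simp only [List.head?_cons, Option.some.injEq, List.tail_cons, List.cons.injEq, true_and]
    by_cases h : p = [] ∧ w = E.rng e ∧ f = e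
    · rw [if_pos h]
      by_cases h2 : b = c
      · rw [if_pos h2, if_pos ⟨h.2.1, h.1, h.2.2, h2⟩]
      · rw [if_neg h2, if_neg fun h' => h2 h'.2.2.2]
    · rw [if_neg h, if_neg fun h' => h ⟨h'.2.1, h'.1, h'.2.2.1⟩]

theorem trace_T_one (e : E.Ed) :
    trace_T e (trace_one E) = trace_ind (E.rng e) [] [e] := by
  funext ⟨w, p, b⟩
  rw [trace_T_apply, trace_ind_apply]
  unfold trace_one
  cases b with
  | nil => simp
  | cons f b =>
    simp only [List.head?_cons, Option.some.injEq, List.tail_cons, List.cons.injEq, true_and,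
      reduceCtorEq, and_false, if_false, ite_self, zero_add]
    by_cases h : p = [] ∧ w = E.rng e ∧ f = e
    · rw [if_pos h]
      by_cases h2 : b = []
      · rw [if_pos h2, if_pos ⟨h.2.1, h.1, h.2.2, h2⟩]
      · rw [if_neg h2, if_neg fun h' => h2 h'.2.2.2]
    · rw [if_neg h, if_neg fun h' => h ⟨h'.2.1, h'.1, h'.2.2.1⟩]

theorem trace_TP_ind : ∀ (q : List E.Ed) (a w : E.V) (c : List E.Ed), IsPath E q a w →
    (trace_l E).TP w q (trace_ind a [] c) = trace_ind w [] (q.reverse ++ c)
  | [], a, w, c, h => by
    change a = w at h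
    subst h
    change trace_P a _ = _
    funext ⟨w', p, b⟩
    rw [trace_P_apply, List.reverse_nil, List.nil_append, trace_ind_apply]
    by_cases h : w' = a ∧ p = [] ∧ b = c
    · obtain ⟨rfl, rfl, rfl⟩ := h
      rw [if_pos (show trace_st w' [] = w' from rfl)]
    · rw [if_neg h, ite_self]
  | e :: q, a, w, c, h => by
    obtain ⟨rfl, h⟩ := h
    change (trace_l E).TP w q (trace_T e _) = _
    rw [trace_T_ind, trace_TP_ind q _ w _ h, List.reverse_cons, List.append_assoc]
    rfl

theorem trace_TP_one (q : List E.Ed) (a w : E.V) (h : IsPath E q a w) :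
    (trace_l E).TP w q (trace_one E) = trace_ind w [] q.reverse := by
  cases q with
  | nil =>
    change trace_P w _ = _
    funext ⟨w', p, b⟩
    rw [trace_P_apply, List.reverse_nil, trace_ind_apply]
    unfold trace_one
    by_cases h : p = [] ∧ b = []
    · obtain ⟨rfl, rfl⟩ := h
      simp only [and_self, if_true, and_true]
      rfl
    · rw [if_neg h, ite_self, if_neg fun h' => h h'.2]
  | cons e q =>
    obtain ⟨-, h⟩ := h
    change (trace_l E).TP w q (trace_T e _) = _
    rw [trace_T_one, trace_TP_ind q _ w _ h, List.reverse_cons]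

theorem trace_st_path : ∀ {p : List E.Ed} {a w : E.V}, IsPath E p a w → trace_st w p = a
  | [], _, _, h => h.symm
  | _ :: _, _, _, h => h.1

theorem trace_SP_ind : ∀ (p : List E.Ed) (a w : E.V) (b : List E.Ed), IsPath E p a w →
    (trace_l E).SP w p (trace_ind w [] b) = trace_ind w p b
  | [], a, w, b, h => by
    have h1 := trace_TP_ind [] w w b rfl
    exact h1
  | e :: p, a, w, b, h => by
    obtain ⟨rfl, h⟩ := h
    change trace_S e ((trace_l E).SP w p _) = _
    rw [trace_SP_ind p _ w b h]
    funext ⟨w', p', b'⟩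
    cases p' with
    | nil =>
      rw [trace_S_nil, trace_ind_apply, if_neg]
      simp
    | cons f p' =>
      rw [trace_S_cons, trace_ind_apply, trace_ind_apply]
      by_cases h1 : w' = w ∧ f :: p' = e :: p ∧ b' = b
      · obtain ⟨rfl, h2, rfl⟩ := h1
        rw [List.cons.injEq] at h2
        obtain ⟨rfl, rfl⟩ := h2
        rw [if_pos ⟨rfl, trace_st_path h⟩]
        simp
      · rw [if_neg h1]
        split_ifs with h2 h3
        · exact absurd ⟨h3.1, by rw [h2.1, h3.2.1], h3.2.2⟩ h1
        · rfl
        · rfl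

/-! ### The functional -/

section

variable (hE : ∀ (v : E.V) (s : Finset E.Ed), s.Nonempty → ¬ ∀ e, e ∈ s ↔ E.src e = v)

/-- the coefficients of an element -/
def trace_k : LPA E →ₗ[ℂ] (trace_X E → ℂ) where
  toFun x := lLift (trace_lv hE) x (trace_one E)
  map_add' x y := by
    rw [map_add]
    rfl
  map_smul' c x := by
    rw [map_smul]
    rfl

theorem trace_k_wd {w : E.V} {p q : List E.Ed} (h : Valid w p q) :
    trace_k hE (wd w p q) = trace_ind w p q.reverse := by
  obtain ⟨⟨a, ha⟩, b, hb⟩ := h
  change lLift (trace_lv hE) (wd w p q) (trace_one E) = _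
  have h1 : lLift (trace_lv hE) (wd w p q) = (trace_l E).SP w p * (trace_l E).TP w q := by
    unfold wd
    rw [map_mul, ← Fam.map_SP, ← Fam.map_TP, lLift_lf]
  rw [h1]
  change (trace_l E).SP w p ((trace_l E).TP w q (trace_one E)) = _
  rw [trace_TP_one q b w hb, trace_SP_ind p a w _ ha]

theorem trace_inv {w : E.V} {p q : List E.Ed} (h : ¬ Valid w p q) : wd w p q = 0 := by
  unfold wd
  by_cases hp : ∃ a, IsPath E p a w
  · by_cases hq : ∃ b, IsPath E q b w
    · exact absurd ⟨hp, hq⟩ h
    · rw [lf_leavitt.TP_zero (not_exists.1 hq), mul_zero]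
  · rw [lf_leavitt.SP_zero (not_exists.1 hp), zero_mul]

theorem trace_fin (u : E.V) (x : LPA E) :
    (Function.support fun p : List E.Ed => trace_k hE x (u, p, p.reverse)).Finite := by
  have hx := lpa_words x
  induction hx using Submodule.span_induction with
  | mem x hx =>
    obtain ⟨w, p, q, rfl⟩ := hx
    by_cases h : Valid w p q
    · refine (Set.finite_singleton p).subset fun p' hp' => ?_
      have h1 := trace_k_wd hE h
      unfold wd at h1
      rw [Function.mem_support, h1, trace_ind_apply] at hp'
      by_contra h2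
      exact hp' (if_neg fun h' => h2 h'.2.1)
    · have h1 := trace_inv h
      unfold wd at h1
      rw [h1]
      simp
  | zero => simp
  | add x y _ _ h1 h2 =>
    refine (h1.union h2).subset fun p hp => ?_
    rw [Function.mem_support, map_add, Pi.add_apply] at hp
    by_contra h3
    rw [Set.mem_union, not_or, Function.notMem_support, Function.notMem_support] at h3
    rw [h3.1, h3.2, add_zero] at hp
    exact hp rfl
  | smul c x _ h1 =>
    refine h1.subset fun p hp => ?_
    rw [Function.mem_support, map_smul, Pi.smul_apply] at hp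
    by_contra h3
    rw [Function.notMem_support] at h3
    rw [h3, smul_zero] at hp
    exact hp rfl

/-- the trace -/
def trace_t (u : E.V) : LPA E →ₗ[ℂ] ℂ where
  toFun x := ∑ᶠ p : List E.Ed, trace_k hE x (u, p, p.reverse)
  map_add' x y := by
    rw [← finsum_add_distrib (trace_fin hE u x) (trace_fin hE u y)]
    apply finsum_congr
    intro p
    rw [map_add, Pi.add_apply]
  map_smul' c x := by
    rw [RingHom.id_apply, smul_finsum]
    apply finsum_congr
    intro p
    rw [map_smul, Pi.smul_apply]

theorem trace_val (u w : E.V) (p q : List E.Ed) : trace_t hE u (wd w p q) =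
    if p = q ∧ w = u ∧ ∃ a, IsPath E p a w then 1 else 0 := by
  by_cases h : Valid w p q
  · change ∑ᶠ p' : List E.Ed, trace_k hE (wd w p q) (u, p', p'.reverse) = _
    rw [trace_k_wd hE h, finsum_eq_single _ p]
    · rw [trace_ind_apply]
      by_cases h1 : p = q ∧ w = u
      · obtain ⟨rfl, rfl⟩ := h1
        rw [if_pos ⟨rfl, rfl, rfl⟩, if_pos ⟨rfl, rfl, h.1⟩]
      · rw [if_neg, if_neg]
        · rintro ⟨h2, h3, -⟩
          exact h1 ⟨h2, h3⟩
        · rintro ⟨h2, -, h3⟩
          exact h1 ⟨List.reverse_injective h3, h2.symm⟩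
    · intro p' hp'
      rw [trace_ind_apply]
      exact if_neg fun h' => hp' h'.2.1
  · rw [trace_inv h, map_zero, if_neg]
    rintro ⟨rfl, rfl, h1⟩
    exact h ⟨h1, h1⟩

theorem trace_ne (u w : E.V) {p q : List E.Ed} (h : p ≠ q) : trace_t hE u (wd w p q) = 0 := by
  rw [trace_val, if_neg fun h' => h h'.1]

/-- it is enough to check the trace property on words -/
theorem trace_lin (t : LPA E →ₗ[ℂ] ℂ) (g : LPA E)
    (h : ∀ w p q, Valid w p q → t (g * wd w p q) = t (wd w p q * g)) (y : LPA E) :
    t (g * y) = t (y * g) := by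
  have hy := lpa_words y
  induction hy using Submodule.span_induction with
  | mem y hy =>
    obtain ⟨w, p, q, rfl⟩ := hy
    by_cases hv : Valid w p q
    · exact h w p q hv
    · have h1 := trace_inv hv
      unfold wd at h1
      rw [h1, mul_zero, zero_mul]
  | zero => rw [mul_zero, zero_mul]
  | add x y _ _ h1 h2 => rw [mul_add, add_mul, map_add, map_add, h1, h2]
  | smul c x _ h1 => rw [mul_smul_comm, smul_mul_assoc, map_smul, map_smul, h1]

theorem trace_start {p : List E.Ed} {a b w : E.V} (h : IsPath E p a w) (h' : IsPath E p b w) :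
    a = b := by
  rw [← trace_st_path h, trace_st_path h']

/-- appending an edge -/
theorem trace_SP_S {R : Type*} [NonUnitalRing R] {l : Fam E R} (hl : IsLeavitt l) (e : E.Ed) :
    ∀ p : List E.Ed, l.SP (E.src e) p * l.S e = l.SP (E.rng e) (p ++ [e])
  | [] => by
    rw [List.nil_append, Fam.SP_cons, Fam.SP_nil, Fam.SP_nil, hl.ps, hl.sp]
  | f :: p => by
    rw [Fam.SP_cons, List.cons_append, Fam.SP_cons, mul_assoc, trace_SP_S hl e p]

theorem trace_gP (u v : E.V) (y : LPA E) :
    trace_t hE u ((lf E).P v * y) = trace_t hE u (y * (lf E).P v) := by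
  refine trace_lin _ _ (fun w p q h => ?_) y
  obtain ⟨⟨a, ha⟩, b, hb⟩ := h
  have h1 : (lf E).P v * wd w p q = if v = a then wd w p q else 0 := by
    unfold wd
    rw [← lf_leavitt.P_SP ha, ← mul_assoc, ← mul_assoc]
    split_ifs with h
    · rw [h, lf_leavitt.idem]
    · rw [lf_leavitt.orth _ _ h, zero_mul, zero_mul]
  have h2 : wd w p q * (lf E).P v = if b = v then wd w p q else 0 := by
    unfold wd
    rw [← lf_leavitt.TP_P hb, mul_assoc, mul_assoc]
    split_ifs with h
    · rw [h, lf_leavitt.idem]
    · rw [lf_leavitt.orth _ _ h, mul_zero, mul_zero]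
  rw [h1, h2]
  by_cases hpq : p = q
  · subst hpq
    have hab := trace_start ha hb
    subst hab
    by_cases hv : v = a
    · rw [if_pos hv, if_pos hv.symm]
    · rw [if_neg hv, if_neg (Ne.symm hv)]
  · have h3 := trace_ne hE u w hpq
    split_ifs <;> simp [h3]

theorem trace_gS (u : E.V) (e : E.Ed) (y : LPA E) :
    trace_t hE u ((lf E).S e * y) = trace_t hE u (y * (lf E).S e) := by
  refine trace_lin _ _ (fun w p q h => ?_) y
  obtain ⟨⟨a, ha⟩, b, hb⟩ := h
  have h1 : (lf E).S e * wd w p q = wd w (e :: p) q := by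
    unfold wd
    rw [← mul_assoc]
    rfl
  rw [h1]
  cases q with
  | nil =>
    rw [trace_ne hE u w (List.cons_ne_nil e p)]
    unfold wd
    rw [Fam.TP_nil, lf_leavitt.SP_P]
    by_cases h2 : E.src e = w
    · subst h2
      have h3 : (lf E).SP (E.src e) p * (lf E).S e = wd (E.rng e) (p ++ [e]) [] := by
        unfold wd
        rw [Fam.TP_nil, lf_leavitt.SP_P, trace_SP_S lf_leavitt]
      rw [h3, trace_ne hE u _ (by simp)]
    · rw [← lf_leavitt.ps e, ← mul_assoc, lf_leavitt.SP_P0 (Ne.symm h2), zero_mul, map_zero]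
  | cons f q =>
    obtain ⟨-, hq⟩ := hb
    by_cases h2 : f = e
    · subst h2
      have h3 : wd w p (f :: q) * (lf E).S f = wd w p q := by
        unfold wd
        rw [Fam.TP_cons, mul_assoc, mul_assoc, lf_leavitt.ts, lf_leavitt.TP_P hq]
      rw [h3, trace_val, trace_val]
      by_cases h4 : p = q
      · subst h4
        by_cases hw : w = u
        · rw [if_pos ⟨rfl, hw, _, rfl, hq⟩, if_pos ⟨rfl, hw, _, hq⟩]
        · rw [if_neg fun h' => hw h'.2.1, if_neg fun h' => hw h'.2.1]
      · rw [if_neg, if_neg fun h' => h4 h'.1]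
        rintro ⟨h5, -⟩
        rw [List.cons.injEq] at h5
        exact h4 h5.2
    · have h3 : wd w p (f :: q) * (lf E).S e = 0 := by
        unfold wd
        rw [Fam.TP_cons, mul_assoc, mul_assoc, lf_leavitt.ts0 _ _ h2, mul_zero, mul_zero]
      rw [h3, map_zero, trace_ne hE u w]
      intro h5
      rw [List.cons.injEq] at h5
      exact h2 h5.1.symm

theorem trace_gT (u : E.V) (e : E.Ed) (y : LPA E) :
    trace_t hE u ((lf E).T e * y) = trace_t hE u (y * (lf E).T e) := by
  refine trace_lin _ _ (fun w p q h => ?_) y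
  obtain ⟨⟨a, ha⟩, b, hb⟩ := h
  have h1 : wd w p q * (lf E).T e = wd w p (e :: q) := by
    unfold wd
    rw [mul_assoc]
    rfl
  rw [h1]
  cases p with
  | nil =>
    rw [trace_ne hE u w (List.cons_ne_nil e q).symm]
    unfold wd
    rw [Fam.SP_nil, lf_leavitt.P_TP]
    by_cases h2 : E.src e = w
    · subst h2
      have h3 : (lf E).T e * (lf E).TP (E.src e) q = wd (E.rng e) [] (q ++ [e]) := by
        unfold wd
        rw [Fam.SP_nil, lf_leavitt.P_TP, lf_leavitt.T_TP]
      rw [h3, trace_ne hE u _ (by simp)]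
    · rw [lf_leavitt.T_TP0 h2, map_zero]
  | cons f p =>
    obtain ⟨-, hp⟩ := ha
    by_cases h2 : e = f
    · subst h2
      have h3 : (lf E).T e * wd w (e :: p) q = wd w p q := by
        unfold wd
        rw [Fam.SP_cons, mul_assoc, lf_leavitt.TS_assoc, ← mul_assoc, lf_leavitt.P_SP hp]
      rw [h3, trace_val, trace_val]
      by_cases h4 : p = q
      · subst h4
        by_cases hw : w = u
        · rw [if_pos ⟨rfl, hw, _, hp⟩, if_pos ⟨rfl, hw, _, rfl, hp⟩]
        · rw [if_neg fun h' => hw h'.2.1, if_neg fun h' => hw h'.2.1]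
      · rw [if_neg fun h' => h4 h'.1, if_neg]
        rintro ⟨h5, -⟩
        rw [List.cons.injEq] at h5
        exact h4 h5.2
    · have h3 : (lf E).T e * wd w (f :: p) q = 0 := by
        unfold wd
        rw [Fam.SP_cons, mul_assoc, lf_leavitt.TS0_assoc h2]
      rw [h3, map_zero, trace_ne hE u w]
      intro h5
      rw [List.cons.injEq] at h5
      exact h2 h5.1.symm

end

theorem p_trace : S_trace := by
  intro E hE u
  refine ⟨trace_t hE u, ?_, ?_⟩
  · intro x
    let X : Submodule ℂ (LPA E) :=
      { carrier := {x | ∀ y, trace_t hE u (x * y) = trace_t hE u (y * x)}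
        add_mem' := by
          intro a b ha hb y
          rw [add_mul, mul_add, map_add, map_add, ha, hb]
        zero_mem' := by
          intro y
          rw [zero_mul, mul_zero]
        smul_mem' := by
          intro c a ha y
          rw [smul_mul_assoc, mul_smul_comm, map_smul, map_smul, ha] }
    have key : ∀ g ∈ X, ∀ x ∈ X, g * x ∈ X := by
      intro g hg x hx y
      rw [mul_assoc, hg, mul_assoc, hx, mul_assoc]
    exact lpa_top X (trace_gP hE u) (trace_gS hE u) (trace_gT hE u)
      (fun v x hx => key _ (trace_gP hE u v) x hx) (fun e x hx => key _ (trace_gS hE u e) x hx)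
      (fun e x hx => key _ (trace_gT hE u e) x hx) x
  · intro v p q h
    rw [trace_val]
    by_cases h1 : p = q ∧ v = u
    · rw [if_pos h1, if_pos ⟨h1.1, h1.2, h.1⟩]
    · rw [if_neg h1, if_neg fun h' => h1 ⟨h'.1, h'.2.1⟩]

end

end Pool.Agent.Lib.MP_8f60dc_al.IB
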